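import Pool.Agent.Work.MP_76c0db_an.Contr

set_option autoImplicit false

namespace Pool.Agent.Work.MP76c0db

open Finset Function Hyp

/-- Double sum `∑_{j,l<n} a (j+l)`. -/
noncomputable def T2 (n : ℕ) (a : ℕ → ℝ) : ℝ := ∑ j ∈ range n, ∑ l ∈ range n, a (j + l)

/-- Shifted double sum. -/
noncomputable def T2s (n : ℕ) (a : ℕ → ℝ) : ℝ := ∑ j ∈ range n, ∑ l ∈ range n, a (j + l + 1)

lemma T2_tel (n : ℕ) (a : ℕ → ℝ) :
    T2s n a - T2 n a = ∑ l ∈ range n, (a (n + l) - a l) := by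
  unfold T2s T2
  rw [sum_comm, sum_comm (f := fun j l => a (j + l)), ← sum_sub_distrib]
  apply sum_congr rfl
  intro l _
  rw [← sum_sub_distrib]
  have := sum_range_sub (fun j => a (j + l)) n
  simp only [zero_add] at this
  rw [← this]
  apply sum_congr rfl
  intro j _
  congr 2
  omega

lemma T2_tel_abs (n : ℕ) (a : ℕ → ℝ) :
    |T2s n a - T2 n a| ≤ ∑ i ∈ range (2 * n), |a i| := by
  rw [T2_tel, two_mul, sum_range_add, ← sum_add_distrib]
  refine (abs_sum_le_sum_abs _ _).trans ?_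
  apply sum_le_sum
  intro l _
  have := abs_sub (a (n + l)) (a l)
  linarith

lemma T2_abs_le {n : ℕ} {a b : ℕ → ℝ} {c : ℝ} (h : ∀ i < 2 * n, |b i| ≤ a i * c) :
    |T2 n b| ≤ T2 n a * c := by
  unfold T2
  rw [sum_mul]
  refine (abs_sum_le_sum_abs _ _).trans ?_
  apply sum_le_sum
  intro j hj
  rw [sum_mul]
  refine (abs_sum_le_sum_abs _ _).trans ?_
  apply sum_le_sum
  intro l hl
  have := mem_range.1 hj
  have := mem_range.1 hl
  exact h _ (by omega)

/-- Lower bound for the double sum by the full sum, using Denjoy's bound for time `q`. -/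
lemma sum_le_T2 {q : ℕ} {a : ℕ → ℝ} {M : ℝ} (hM : 1 ≤ M) (ha : ∀ i, 0 ≤ a i)
    (h1 : ∀ i, a (i + q) ≤ M * a i) (h2 : ∀ i, a i ≤ M * a (i + q)) :
    q * ∑ i ∈ range (2 * (2 * q)), a i ≤ (1 + M) ^ 2 * T2 (2 * q) a := by
  set E : ℝ := ∑ r ∈ range q, a (q + r) with hE
  have e0 : ∑ r ∈ range q, a r ≤ M * E := by
    rw [hE, mul_sum]
    apply sum_le_sum
    intro r _
    rw [add_comm]; exact h2 r
  have e2 : ∑ r ∈ range q, a (q + q + r) ≤ M * E := by
    rw [hE, mul_sum]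
    apply sum_le_sum
    intro r _
    have := h1 (q + r)
    rwa [show q + r + q = q + q + r by omega] at this
  have e3 : ∑ r ∈ range q, a (q + q + q + r) ≤ M * (M * E) := by
    rw [hE, mul_sum, mul_sum]
    apply sum_le_sum
    intro r _
    have t1 := h1 (q + r)
    rw [show q + r + q = q + q + r by omega] at t1
    have t2 := h1 (q + q + r)
    rw [show q + q + r + q = q + q + q + r by omega] at t2
    nlinarith
  have e4 : ∑ i ∈ range (2 * (2 * q)), a i ≤ (1 + M) ^ 2 * E := by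
    rw [show 2 * (2 * q) = q + q + q + q by omega, sum_range_add, sum_range_add, sum_range_add]
    have : ∑ r ∈ range q, a (q + r) = E := rfl
    rw [this]
    nlinarith
  have e5 : q * E ≤ T2 (2 * q) a := by
    unfold T2
    calc q * E = ∑ j ∈ range q, E := by rw [sum_const, card_range, nsmul_eq_mul]
      _ ≤ ∑ j ∈ range q, ∑ l ∈ range (2 * q), a (j + l) := by
          apply sum_le_sum
          intro j hj
          have hjq := mem_range.1 hj
          have hsplit : range (2 * q) = range ((q - j) + (q + j)) := by congr 1; omega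
          rw [hsplit, sum_range_add]
          have t1 : 0 ≤ ∑ l ∈ range (q - j), a (j + l) := sum_nonneg fun i _ => ha _
          have t2 : E ≤ ∑ l ∈ range (q + j), a (j + (q - j + l)) := by
            rw [sum_range_add]
            have t3 : 0 ≤ ∑ x ∈ range j, a (j + (q - j + (q + x))) := sum_nonneg fun i _ => ha _
            have t4 : E = ∑ l ∈ range q, a (j + (q - j + l)) := by
              rw [hE]
              apply sum_congr rfl
              intro r _
              congr 1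
              omega
            linarith
          linarith
      _ ≤ ∑ j ∈ range (2 * q), ∑ l ∈ range (2 * q), a (j + l) := by
          apply sum_le_sum_of_subset_of_nonneg (range_mono (by omega))
          intro j _ _
          exact sum_nonneg fun i _ => ha _
  have hq : (0:ℝ) ≤ q := Nat.cast_nonneg _
  calc q * ∑ i ∈ range (2 * (2 * q)), a i ≤ q * ((1 + M) ^ 2 * E) := by gcongr
    _ = (1 + M) ^ 2 * (q * E) := by ring
    _ ≤ _ := by gcongr

namespace Hyp

variable {F : CircleDeg1Lift}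

lemma hasDerivAt_deriv (H : Hyp F) (y : ℝ) :
    HasDerivAt (deriv (F : ℝ → ℝ)) (nonl F y * deriv (F : ℝ → ℝ) y) y := by
  have h1 : HasDerivAt (fun x => Real.log (deriv (F : ℝ → ℝ) x)) (nonl F y) y :=
    ((H.log_cd.differentiable (by norm_num)) y).hasDerivAt
  have h2 := h1.exp
  have h3 : (fun x => Real.exp (Real.log (deriv (F : ℝ → ℝ) x))) = deriv (F : ℝ → ℝ) := by
    ext x; exact Real.exp_log (H.pos x)
  rw [h3, Real.exp_log (H.pos y)] at h2
  rwa [mul_comm]

lemma hasDerivAt_D (H : Hyp F) (i : ℕ) (x : ℝ) :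
    HasDerivAt (D F i) (D F i x * W F (nonl F) i x) x := by
  induction i with
  | zero =>
    have : D F 0 = fun _ => 1 := by ext y; simp
    rw [this]
    simpa [W] using hasDerivAt_const x (1:ℝ)
  | succ i ih =>
    have h1 : D F (i + 1) = fun y => D F i y * deriv (F : ℝ → ℝ) (F^[i] y) := by
      ext y; rw [D_succ]
    rw [h1]
    have h2 : HasDerivAt (fun y => deriv (F : ℝ → ℝ) (F^[i] y))
        (nonl F (F^[i] x) * deriv (F : ℝ → ℝ) (F^[i] x) * D F i x) x :=
      (H.hasDerivAt_deriv (F^[i] x)).comp x (hasDerivAt_iterate F H.diff i x)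
    refine (ih.fun_mul h2).congr_deriv ?_
    have h3 : W F (nonl F) (i + 1) x = W F (nonl F) i x + nonl F (F^[i] x) * D F i x := by
      simp [W, sum_range_succ]
    rw [h3]
    ring

lemma nonl_CP (H : Hyp F) : CP (nonl F) := ⟨H.nonl_cont, nonl_add_int⟩

lemma integral_nonl (H : Hyp F) : ∫ x in (0:ℝ)..1, nonl F x = 0 := by
  have h := intervalIntegral.integral_eq_sub_of_hasDerivAt
    (f := fun x => Real.log (deriv (F : ℝ → ℝ) x)) (f' := nonl F) (a := 0) (b := 1)
    (fun x _ => ((H.log_cd.differentiable (by norm_num)) x).hasDerivAt)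
    (H.nonl_cont.intervalIntegrable _ _)
  rw [h]
  have := deriv_add_int F 0 1
  simp only [Int.cast_one, zero_add] at this
  rw [this, sub_self]

end Hyp

/-- The averaged conjugacy `(1/n^2) ∑_{j,l<n} F^{j+l}`. -/
noncomputable def conj (F : CircleDeg1Lift) (n : ℕ) (hn : 0 < n) : CircleDeg1Lift where
  toFun x := ((n:ℝ) ^ 2)⁻¹ * T2 n (fun i => F^[i] x)
  monotone' := by
    intro x y hxy
    unfold T2
    simp only
    gcongr with j _ l _
    have := (F ^ (j + l)).monotone hxy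
    rwa [CircleDeg1Lift.coe_pow] at this
  map_add_one' := by
    intro x
    have h : ∀ i, F^[i] (x + 1) = F^[i] x + 1 := fun i => by
      have := iterate_add_int F i x 1
      simpa using this
    have hn' : (n:ℝ) ≠ 0 := by positivity
    unfold T2
    simp only [h, sum_add_distrib, sum_const, card_range, nsmul_eq_mul, mul_one]
    field_simp


lemma conj_apply (F : CircleDeg1Lift) (n : ℕ) (hn : 0 < n) (x : ℝ) :
    conj F n hn x = ((n:ℝ) ^ 2)⁻¹ * T2 n (fun i => F^[i] x) := rfl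

lemma T2_hasDerivAt {n : ℕ} {f : ℕ → ℝ → ℝ} {f' : ℕ → ℝ} {x : ℝ}
    (h : ∀ i, HasDerivAt (f i) (f' i) x) :
    HasDerivAt (fun y => T2 n (fun i => f i y)) (T2 n f') x := by
  unfold T2
  apply HasDerivAt.fun_sum
  intro j _
  apply HasDerivAt.fun_sum
  intro l _
  exact h _

/-- derivative of the conjugacy -/
noncomputable def B (F : CircleDeg1Lift) (n : ℕ) (x : ℝ) : ℝ :=
  ((n:ℝ) ^ 2)⁻¹ * T2 n (fun i => D F i x)

/-- derivative of the conjugacy composed with `F` -/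
noncomputable def P (F : CircleDeg1Lift) (n : ℕ) (x : ℝ) : ℝ :=
  ((n:ℝ) ^ 2)⁻¹ * T2s n (fun i => D F i x)

/-- second derivative of the `i`-th iterate -/
noncomputable def D2 (F : CircleDeg1Lift) (i : ℕ) (x : ℝ) : ℝ := D F i x * W F (nonl F) i x

noncomputable def B' (F : CircleDeg1Lift) (n : ℕ) (x : ℝ) : ℝ :=
  ((n:ℝ) ^ 2)⁻¹ * T2 n (fun i => D2 F i x)

noncomputable def P' (F : CircleDeg1Lift) (n : ℕ) (x : ℝ) : ℝ :=
  ((n:ℝ) ^ 2)⁻¹ * T2s n (fun i => D2 F i x)

lemma T2s_eq (n : ℕ) (a : ℕ → ℝ) : T2s n a = T2 n (fun i => a (i + 1)) := rfl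

namespace Hyp

variable {F : CircleDeg1Lift}

lemma hasDerivAt_conj (H : Hyp F) {n : ℕ} (hn : 0 < n) (x : ℝ) :
    HasDerivAt (conj F n hn : ℝ → ℝ) (B F n x) x := by
  have h := (T2_hasDerivAt (n := n) (fun i => hasDerivAt_iterate F H.diff i x)).const_mul
    (((n:ℝ) ^ 2)⁻¹)
  exact h

lemma hasDerivAt_conj_comp (H : Hyp F) {n : ℕ} (hn : 0 < n) (x : ℝ) :
    HasDerivAt (fun y => conj F n hn (F y)) (P F n x) x := by
  have h := (T2_hasDerivAt (n := n) (fun i => hasDerivAt_iterate F H.diff (i + 1) x)).const_mul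
    (((n:ℝ) ^ 2)⁻¹)
  exact h

lemma hasDerivAt_B (H : Hyp F) (n : ℕ) (x : ℝ) : HasDerivAt (B F n) (B' F n x) x :=
  (T2_hasDerivAt (n := n) (fun i => H.hasDerivAt_D i x)).const_mul (((n:ℝ) ^ 2)⁻¹)

lemma hasDerivAt_P (H : Hyp F) (n : ℕ) (x : ℝ) : HasDerivAt (P F n) (P' F n x) x :=
  (T2_hasDerivAt (n := n) (fun i => H.hasDerivAt_D (i + 1) x)).const_mul (((n:ℝ) ^ 2)⁻¹)

lemma B_pos (H : Hyp F) {n : ℕ} (hn : 0 < n) (x : ℝ) : 0 < B F n x := by
  have hne : (range n).Nonempty := ⟨0, by simpa using hn⟩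
  unfold B T2
  have : 0 < ∑ j ∈ range n, ∑ l ∈ range n, D F (j + l) x :=
    sum_pos (fun j _ => sum_pos (fun l _ => D_pos F H.pos _ _) hne) hne
  positivity

lemma iterate_cd (H : Hyp F) (i : ℕ) : ContDiff ℝ 2 (F^[i]) := by
  induction i with
  | zero => exact contDiff_id
  | succ i ih =>
    rw [iterate_succ]
    exact ih.comp H.cd

lemma conj_cd (H : Hyp F) {n : ℕ} (hn : 0 < n) : ContDiff ℝ 2 (conj F n hn : ℝ → ℝ) := by
  have : (conj F n hn : ℝ → ℝ) = fun x => ((n:ℝ) ^ 2)⁻¹ * T2 n (fun i => F^[i] x) := rfl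
  rw [this]
  unfold T2
  apply ContDiff.mul contDiff_const
  apply ContDiff.sum
  intro j _
  apply ContDiff.sum
  intro l _
  exact H.iterate_cd _

end Hyp

namespace Setup

variable {F : CircleDeg1Lift} {K M : ℝ}

/-- The key estimates. -/
lemma estimates (St : Setup F K M) {q : ℕ} (hq : 0 < q) (hgood : Good F M q) {ε : ℝ}
    (hε : 0 ≤ ε) (hN : ∀ i ≤ 2 * (2 * q), ∀ x : ℝ, |W F (nonl F) i x| ≤ ε * S F (2 * (2 * q)) x)
    (x : ℝ) :
    |P F (2 * q) x - B F (2 * q) x| ≤ (1 + M) ^ 2 / q * B F (2 * q) x ∧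
    |P' F (2 * q) x * B F (2 * q) x - P F (2 * q) x * B' F (2 * q) x| ≤
      8 * ε * (1 + M) ^ 4 * B F (2 * q) x ^ 3 := by
  have hDpos : ∀ j x, 0 < D F j x := D_pos F St.H.pos
  set n := 2 * q with hn
  have hnpos : 0 < n := by omega
  have hqR : (0:ℝ) < q := by exact_mod_cast hq
  have hnR : (n:ℝ) = 2 * q := by rw [hn]; push_cast; ring
  have hnRpos : (0:ℝ) < n := by exact_mod_cast hnpos
  set s := S F (2 * n) x with hs
  have hs0 : 0 ≤ s := S_nonneg F St.H.pos _ x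
  set b := B F n x with hb
  have hbpos : 0 < b := St.H.B_pos hnpos x
  have hbT : T2 n (fun i => D F i x) = n ^ 2 * b := by
    rw [hb]; unfold B; field_simp
  -- (i)
  have i1 : q * s ≤ (1 + M) ^ 2 * (n ^ 2 * b) := by
    rw [← hbT]
    apply sum_le_T2 St.one_le_M
    · intro i; exact (hDpos i x).le
    · intro i
      rw [D_add]
      have := (hgood (F^[i] x)).1
      have h2 := hDpos i x
      nlinarith
    · intro i
      rw [D_add]
      have := (hgood (F^[i] x)).2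
      have h2 := hDpos i x
      nlinarith
  have i1' : s ≤ 2 * (1 + M) ^ 2 * n * b := by
    have h1 : (q:ℝ) * s ≤ q * (2 * (1 + M) ^ 2 * n * b) := by
      rw [hnR] at i1 ⊢
      nlinarith
    exact le_of_mul_le_mul_left h1 hqR
  -- (ii)
  have i2 : |P F n x - b| ≤ ((n:ℝ) ^ 2)⁻¹ * s := by
    have h1 : P F n x - b = ((n:ℝ) ^ 2)⁻¹ * (T2s n (fun i => D F i x) - T2 n (fun i => D F i x)) := by
      rw [hb]; unfold P B; ring
    rw [h1, abs_mul, abs_of_pos (by positivity : (0:ℝ) < ((n:ℝ) ^ 2)⁻¹)]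
    apply mul_le_mul_of_nonneg_left _ (by positivity)
    refine (T2_tel_abs n _).trans (le_of_eq ?_)
    rw [hs]; unfold S
    apply sum_congr rfl
    intro i _
    exact abs_of_pos (hDpos i x)
  have hD2 : ∀ i < 2 * n, |D2 F i x| ≤ D F i x * (ε * s) := by
    intro i hi
    unfold D2
    rw [abs_mul, abs_of_pos (hDpos i x)]
    exact mul_le_mul_of_nonneg_left (hN i hi.le x) (hDpos i x).le
  -- (iii)
  have i3 : |P' F n x - B' F n x| ≤ ((n:ℝ) ^ 2)⁻¹ * (ε * s ^ 2) := by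
    have h1 : P' F n x - B' F n x =
        ((n:ℝ) ^ 2)⁻¹ * (T2s n (fun i => D2 F i x) - T2 n (fun i => D2 F i x)) := by
      unfold P' B'; ring
    rw [h1, abs_mul, abs_of_pos (by positivity : (0:ℝ) < ((n:ℝ) ^ 2)⁻¹)]
    apply mul_le_mul_of_nonneg_left _ (by positivity)
    refine (T2_tel_abs n _).trans ?_
    calc ∑ i ∈ range (2 * n), |D2 F i x| ≤ ∑ i ∈ range (2 * n), D F i x * (ε * s) :=
          sum_le_sum fun i hi => hD2 i (mem_range.1 hi)
      _ = s * (ε * s) := by rw [← sum_mul]; rfl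
      _ = ε * s ^ 2 := by ring
  -- (iv)
  have i4 : |B' F n x| ≤ b * (ε * s) := by
    have h1 : |T2 n (fun i => D2 F i x)| ≤ T2 n (fun i => D F i x) * (ε * s) := T2_abs_le hD2
    unfold B'
    rw [abs_mul, abs_of_pos (by positivity : (0:ℝ) < ((n:ℝ) ^ 2)⁻¹)]
    rw [hbT] at h1
    calc ((n:ℝ) ^ 2)⁻¹ * |T2 n (fun i => D2 F i x)| ≤ ((n:ℝ) ^ 2)⁻¹ * (n ^ 2 * b * (ε * s)) := by
          gcongr
      _ = _ := by field_simp
  constructor
  · refine i2.trans ?_
    calc ((n:ℝ) ^ 2)⁻¹ * s ≤ ((n:ℝ) ^ 2)⁻¹ * (2 * (1 + M) ^ 2 * n * b) := by gcongr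
      _ = (1 + M) ^ 2 / q * b := by rw [hnR]; field_simp
  · have h1 : P' F n x * b - P F n x * B' F n x =
        (P' F n x - B' F n x) * b - (P F n x - b) * B' F n x := by ring
    rw [h1]
    have h2 : |(P' F n x - B' F n x) * b - (P F n x - b) * B' F n x| ≤
        ((n:ℝ) ^ 2)⁻¹ * (ε * s ^ 2) * b + ((n:ℝ) ^ 2)⁻¹ * s * (b * (ε * s)) := by
      refine (abs_sub _ _).trans ?_
      rw [abs_mul, abs_mul, abs_of_pos hbpos]
      gcongr
    refine h2.trans ?_
    have h3 : s ^ 2 ≤ (2 * (1 + M) ^ 2 * n * b) ^ 2 := by gcongr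
    calc ((n:ℝ) ^ 2)⁻¹ * (ε * s ^ 2) * b + ((n:ℝ) ^ 2)⁻¹ * s * (b * (ε * s))
        = ((n:ℝ) ^ 2)⁻¹ * (2 * ε * b) * s ^ 2 := by ring
      _ ≤ ((n:ℝ) ^ 2)⁻¹ * (2 * ε * b) * (2 * (1 + M) ^ 2 * n * b) ^ 2 := by gcongr
      _ = 8 * ε * (1 + M) ^ 4 * b ^ 3 := by field_simp; ring

end Setup

end Pool.Agent.Work.MP76c0db
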