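import Mathlib

set_option autoImplicit false

namespace Pool.Agent.Work.MP76c0db

open Finset Function

/-- Derivative of the `n`-th iterate, as a product along the orbit. -/
noncomputable def D (F : CircleDeg1Lift) (n : ℕ) (x : ℝ) : ℝ :=
  ∏ j ∈ range n, deriv (F : ℝ → ℝ) (F^[j] x)

/-- Sum of the derivatives of the first `n` iterates. -/
noncomputable def S (F : CircleDeg1Lift) (n : ℕ) (x : ℝ) : ℝ :=
  ∑ j ∈ range n, D F j x

/-- Weighted Birkhoff sum. -/
noncomputable def W (F : CircleDeg1Lift) (χ : ℝ → ℝ) (n : ℕ) (x : ℝ) : ℝ :=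
  ∑ j ∈ range n, χ (F^[j] x) * D F j x

variable (F : CircleDeg1Lift)

@[simp] lemma D_zero (x : ℝ) : D F 0 x = 1 := by simp [D]

lemma D_succ (n : ℕ) (x : ℝ) : D F (n + 1) x = D F n x * deriv (F : ℝ → ℝ) (F^[n] x) := by
  simp [D, prod_range_succ]

lemma D_add (m n : ℕ) (x : ℝ) : D F (n + m) x = D F n x * D F m (F^[n] x) := by
  simp only [D, prod_range_add, ← iterate_add_apply]
  congr 1
  apply prod_congr rfl
  intro j _
  rw [add_comm]

lemma D_pos (hpos : ∀ x, 0 < deriv (F : ℝ → ℝ) x) (n : ℕ) (x : ℝ) : 0 < D F n x :=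
  prod_pos fun _ _ => hpos _

lemma iterate_add_int (n : ℕ) (x : ℝ) (m : ℤ) : F^[n] (x + m) = F^[n] x + m := by
  rw [← CircleDeg1Lift.coe_pow]; exact CircleDeg1Lift.map_add_int _ _ _

lemma iterate_sub_int (n : ℕ) (x : ℝ) (m : ℤ) : F^[n] (x - m) = F^[n] x - m := by
  rw [← CircleDeg1Lift.coe_pow]; exact CircleDeg1Lift.map_sub_int _ _ _

lemma deriv_add_int (x : ℝ) (m : ℤ) : deriv (F : ℝ → ℝ) (x + m) = deriv (F : ℝ → ℝ) x := by
  have h : (fun y : ℝ => F (y + m)) = fun y => F y + m := by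
    ext y; exact CircleDeg1Lift.map_add_int _ _ _
  have h2 := congrFun (congrArg deriv h) x
  rw [deriv_comp_add_const] at h2
  rw [h2]; simp

lemma D_add_int (n : ℕ) (x : ℝ) (m : ℤ) : D F n (x + m) = D F n x := by
  simp only [D, iterate_add_int, deriv_add_int]

lemma D_sub_int (n : ℕ) (x : ℝ) (m : ℤ) : D F n (x - m) = D F n x := by
  rw [← D_add_int F n (x - m) m]; ring_nf

lemma hasDerivAt_iterate (hd : Differentiable ℝ (F : ℝ → ℝ)) (n : ℕ) (x : ℝ) :
    HasDerivAt (F^[n]) (D F n x) x := by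
  induction n with
  | zero => simpa using hasDerivAt_id x
  | succ n ih =>
    rw [D_succ, iterate_succ', mul_comm]
    exact (hd _).hasDerivAt.comp x ih

lemma strictMono_iterate (hs : StrictMono (F : ℝ → ℝ)) (n : ℕ) : StrictMono (F^[n]) :=
  hs.iterate n

lemma S_succ (n : ℕ) (x : ℝ) : S F (n + 1) x = S F n x + D F n x := by
  simp [S, sum_range_succ]

lemma S_eq_W (n : ℕ) (x : ℝ) : S F n x = W F (fun _ => 1) n x := by
  simp [S, W]

lemma W_add (χ : ℝ → ℝ) (m n : ℕ) (x : ℝ) :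
    W F χ (m + n) x = W F χ m x + D F m x * W F χ n (F^[m] x) := by
  simp only [W, sum_range_add, mul_sum]
  congr 1
  apply sum_congr rfl
  intro j _
  rw [D_add, ← iterate_add_apply, add_comm j m]; ring

lemma S_add (m n : ℕ) (x : ℝ) :
    S F (m + n) x = S F m x + D F m x * S F n (F^[m] x) := by
  simp only [S_eq_W, W_add]

lemma S_nonneg (hpos : ∀ x, 0 < deriv (F : ℝ → ℝ) x) (n : ℕ) (x : ℝ) : 0 ≤ S F n x :=
  sum_nonneg fun _ _ => (D_pos F hpos _ _).le

lemma S_pos (hpos : ∀ x, 0 < deriv (F : ℝ → ℝ) x) {n : ℕ} (hn : 0 < n) (x : ℝ) :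
    0 < S F n x :=
  sum_pos (fun _ _ => D_pos F hpos _ _) ⟨0, by simpa using hn⟩

lemma S_mono (hpos : ∀ x, 0 < deriv (F : ℝ → ℝ) x) {m n : ℕ} (h : m ≤ n) (x : ℝ) :
    S F m x ≤ S F n x :=
  sum_le_sum_of_subset_of_nonneg (range_mono h) fun _ _ _ => (D_pos F hpos _ _).le

end Pool.Agent.Work.MP76c0db
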