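import Pool.Agent.Work.MP_76c0db_an.Good

set_option autoImplicit false

namespace Pool.Agent.Work.MP76c0db

open Finset Function

/-- Continuous one-periodic functions. -/
structure CP (χ : ℝ → ℝ) : Prop where
  cont : Continuous χ
  per : ∀ (x : ℝ) (m : ℤ), χ (x + m) = χ x

namespace CP

lemma unif {χ : ℝ → ℝ} (h : CP χ) {ε : ℝ} (hε : 0 < ε) :
    ∃ δ > 0, ∀ x y : ℝ, |x - y| ≤ δ → |χ x - χ y| ≤ ε := by
  have hu : UniformContinuousOn χ (Set.Icc (-1) 2) :=
    isCompact_Icc.uniformContinuousOn_of_continuous h.cont.continuousOn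
  rw [Metric.uniformContinuousOn_iff] at hu
  obtain ⟨δ, hδ, hd⟩ := hu ε hε
  refine ⟨min (δ / 2) 1, by positivity, fun x y hxy => ?_⟩
  have h1 : χ x = χ (x - ⌊x⌋) := by
    have := h.per (x - ⌊x⌋) ⌊x⌋
    rw [← this]; ring_nf
  have h2 : χ y = χ (y - ⌊x⌋) := by
    have := h.per (y - ⌊x⌋) ⌊x⌋
    rw [← this]; ring_nf
  have h3 := Int.floor_le x
  have h4 := Int.lt_floor_add_one x
  have h5 : |x - y| ≤ 1 := hxy.trans (min_le_right _ _)
  have h6 : |x - y| ≤ δ / 2 := hxy.trans (min_le_left _ _)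
  rw [h1, h2, ← Real.dist_eq]
  apply le_of_lt
  rw [abs_le] at h5
  apply hd
  · constructor <;> linarith
  · constructor <;> linarith
  · rw [Real.dist_eq]
    have : x - ⌊x⌋ - (y - ⌊x⌋) = x - y := by ring
    rw [this]
    linarith

lemma bdd {χ : ℝ → ℝ} (h : CP χ) : ∃ C > 0, ∀ x, |χ x| ≤ C := Hyp.bdd_of_periodic h.cont h.per

lemma const (c : ℝ) : CP (fun _ => c) := ⟨continuous_const, fun _ _ => rfl⟩

lemma sub {χ ψ : ℝ → ℝ} (h : CP χ) (h' : CP ψ) : CP (fun x => χ x - ψ x) :=
  ⟨h.cont.sub h'.cont, fun x m => by rw [h.per, h'.per]⟩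

lemma neg {χ : ℝ → ℝ} (h : CP χ) : CP (fun x => - χ x) :=
  ⟨h.cont.neg, fun x m => by rw [h.per]⟩

end CP

namespace Hyp

variable {F : CircleDeg1Lift}

lemma D_cont (H : Hyp F) (n : ℕ) : Continuous (D F n) := by
  unfold D
  apply continuous_finsetProd
  intro j _
  exact H.deriv_cd.continuous.comp (H.cont.iterate j)

lemma term_CP (H : Hyp F) {χ : ℝ → ℝ} (h : CP χ) (j : ℕ) : CP (fun x => χ (F^[j] x) * D F j x) :=
  ⟨(h.cont.comp (H.cont.iterate j)).mul (H.D_cont j), fun x m => by
    rw [iterate_add_int, h.per, D_add_int]⟩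

lemma W_CP (H : Hyp F) {χ : ℝ → ℝ} (h : CP χ) (n : ℕ) : CP (W F χ n) := by
  constructor
  · unfold W
    apply continuous_finsetSum
    intro j _
    exact (H.term_CP h j).cont
  · intro x m
    unfold W
    apply sum_congr rfl
    intro j _
    exact (H.term_CP h j).per x m

lemma integral_iterate (H : Hyp F) {χ : ℝ → ℝ} (h : CP χ) (j : ℕ) (a b : ℝ) :
    ∫ x in a..b, χ (F^[j] x) * D F j x = ∫ x in (F^[j] a)..(F^[j] b), χ x :=
  intervalIntegral.integral_comp_mul_deriv (fun x _ => hasDerivAt_iterate F H.diff j x)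
    (H.D_cont j).continuousOn h.cont

lemma integral_term (H : Hyp F) {χ : ℝ → ℝ} (h : CP χ) (j : ℕ) :
    ∫ x in (0:ℝ)..1, χ (F^[j] x) * D F j x = ∫ x in (0:ℝ)..1, χ x := by
  rw [H.integral_iterate h]
  have h1 : F^[j] 1 = F^[j] 0 + 1 := by
    have := iterate_add_int F j 0 1
    simpa using this
  have hper : Function.Periodic χ 1 := fun x => by simpa using h.per x 1
  rw [h1, hper.intervalIntegral_add_eq _ 0, zero_add]

lemma integral_W (H : Hyp F) {χ : ℝ → ℝ} (h : CP χ) (n : ℕ) :
    ∫ x in (0:ℝ)..1, W F χ n x = n * ∫ x in (0:ℝ)..1, χ x := by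
  unfold W
  rw [intervalIntegral.integral_finsetSum]
  · simp only [H.integral_term h, sum_const, card_range, nsmul_eq_mul]
  · intro j _
    exact (H.term_CP h j).cont.intervalIntegrable _ _

end Hyp

namespace Setup

variable {F : CircleDeg1Lift} {K M : ℝ}

/-- The lower bound: a nonnegative function is seen by every long weighted orbit. -/
lemma lower (St : Setup F K M) {ψ : ℝ → ℝ} (hψ : CP ψ) (h0 : ∀ x, 0 ≤ ψ x) {ε : ℝ} (hε : 0 < ε) :
    ∃ N : ℕ, ∀ {q q' : ℕ} {p p' : ℤ}, N ≤ q → CR F.translationNumber q q' p p' → ∀ z : ℝ,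
      S F (q + q') z * ((∫ x in (0:ℝ)..1, ψ x) / (2 * K ^ 2) - ε) ≤ W F ψ (q + q') z := by
  obtain ⟨δ, hδ, hd⟩ := hψ.unif hε
  obtain ⟨N, hN⟩ := St.small hδ
  refine ⟨N, fun {q q' p p'} hq hcr z => ?_⟩
  have hK := St.K_pos
  set g := F^[q] z - p with hg
  have hzg : z ≤ g := le_g St.H.irr hcr z
  have hmono : ∀ j, Monotone (F^[j]) := fun j => (St.H.strictMono.iterate j).monotone
  have hDpos : ∀ j x, 0 < D F j x := D_pos F St.H.pos
  -- first estimate
  have e1 : ∫ x in (0:ℝ)..1, ψ x ≤ ∑ j ∈ range (q + q'), ∫ x in (F^[j] z)..(F^[j] g), ψ x := by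
    apply integral_le_of_cover
    · intro i _; exact hmono i hzg
    · intro y
      obtain ⟨j, hj, m, h1, h2⟩ := covering St.H.irr St.H.cont St.H.strictMono hcr z y
      exact ⟨j, hj, m, h1, h2⟩
    · exact hψ.cont
    · exact hψ.per
    · exact h0
  have e2 : ∀ j ∈ range (q + q'), ∫ x in (F^[j] z)..(F^[j] g), ψ x ≤
      (g - z) * (K * ((ψ (F^[j] z) + ε) * D F j z)) := by
    intro j hj
    rw [← St.H.integral_iterate hψ]
    have h1 : ∫ x in z..g, ψ (F^[j] x) * D F j x ≤
        ∫ x in z..g, (K * ((ψ (F^[j] z) + ε) * D F j z)) := by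
      apply intervalIntegral.integral_mono_on hzg
      · exact (St.H.term_CP hψ j).cont.intervalIntegrable _ _
      · exact intervalIntegrable_const
      · intro u hu
        have h2 : ψ (F^[j] u) ≤ ψ (F^[j] z) + ε := by
          have h3 : |F^[j] u - F^[j] z| ≤ δ := by
            have h4 := hN hq hcr (F^[j] z)
            rw [← iterate_g, ← hg] at h4
            have h5 := hmono j hu.1
            have h6 := hmono j hu.2
            rw [abs_le]; constructor <;> linarith
          have := abs_le.1 (hd _ _ h3)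
          linarith [this.2]
        have h3 : D F j u ≤ K * D F j z :=
          St.dist hcr z u z hu.1 hu.2 le_rfl hzg j (mem_range.1 hj).le
        calc ψ (F^[j] u) * D F j u ≤ (ψ (F^[j] z) + ε) * (K * D F j z) := by
              apply mul_le_mul h2 h3 (hDpos _ _).le
              linarith [h0 (F^[j] z)]
          _ = _ := by ring
    refine h1.trans ?_
    rw [intervalIntegral.integral_const, smul_eq_mul]
  have e3 : ∫ x in (0:ℝ)..1, ψ x ≤ (g - z) * (K * (W F ψ (q + q') z + ε * S F (q + q') z)) := by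
    refine e1.trans ((sum_le_sum e2).trans (le_of_eq ?_))
    rw [← mul_sum, ← mul_sum]
    congr 2
    unfold W S
    rw [mul_sum, ← sum_add_distrib]
    apply sum_congr rfl
    intro j _
    ring
  -- second estimate
  have e4 : (g - z) * S F (q + q') z ≤ 2 * K := by
    unfold S
    rw [mul_sum]
    have h1 : ∀ j ∈ range (q + q'), (g - z) * D F j z ≤ K * (F^[j] g - F^[j] z) := by
      intro j hj
      rcases hzg.eq_or_lt with h | h
      · rw [← h]; simp
      · obtain ⟨c, hc, hc'⟩ := exists_hasDerivAt_eq_slope (F^[j]) (D F j) h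
          ((St.H.cont.iterate j).continuousOn) (fun x _ => hasDerivAt_iterate F St.H.diff j x)
        have h2 : D F j z ≤ K * D F j c :=
          St.dist hcr z z c le_rfl hzg hc.1.le hc.2.le j (mem_range.1 hj).le
        have hpos : 0 < g - z := by linarith
        have h3 : (g - z) * D F j c = F^[j] g - F^[j] z := by
          rw [hc']; field_simp
        calc (g - z) * D F j z ≤ (g - z) * (K * D F j c) := by gcongr
          _ = K * ((g - z) * D F j c) := by ring
          _ = _ := by rw [h3]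
    refine (sum_le_sum h1).trans ?_
    rw [← mul_sum]
    have := sum_le_two St.H.irr hcr z
    rw [← hg] at this
    nlinarith
  -- conclusion
  have hS := S_nonneg F St.H.pos (q + q') z
  have hA : 0 ≤ W F ψ (q + q') z + ε * S F (q + q') z := by
    have : 0 ≤ W F ψ (q + q') z := sum_nonneg fun j _ => mul_nonneg (h0 _) (hDpos _ _).le
    positivity
  have e5 : S F (q + q') z * (∫ x in (0:ℝ)..1, ψ x) ≤
      2 * K ^ 2 * (W F ψ (q + q') z + ε * S F (q + q') z) := by
    calc S F (q + q') z * (∫ x in (0:ℝ)..1, ψ x)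
        ≤ S F (q + q') z * ((g - z) * (K * (W F ψ (q + q') z + ε * S F (q + q') z))) := by
          gcongr
      _ = ((g - z) * S F (q + q') z) * (K * (W F ψ (q + q') z + ε * S F (q + q') z)) := by ring
      _ ≤ (2 * K) * (K * (W F ψ (q + q') z + ε * S F (q + q') z)) := by gcongr
      _ = _ := by ring
  have e6 : S F (q + q') z * ((∫ x in (0:ℝ)..1, ψ x) / (2 * K ^ 2)) ≤
      W F ψ (q + q') z + ε * S F (q + q') z := by
    rw [← mul_div_assoc, div_le_iff₀ (by positivity)]
    linarith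
  linarith

end Setup

end Pool.Agent.Work.MP76c0db
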