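import Pool.Agent.Work.MP_76c0db_an.Conf

set_option autoImplicit false

namespace Pool.Agent.Work.MP76c0db

open Finset Function

/-- Shifting a finite sum by `l` changes it by at most `2 l c` when the boundary terms are
bounded by `c`. -/
lemma shift_sum_le {a : ℕ → ℝ} {Q m : ℕ} {c : ℝ} (ha : ∀ i < Q + m, |a i| ≤ c) {l : ℕ}
    (hl : l ≤ m) (hc : 0 ≤ c) :
    ∑ j ∈ range Q, a (j + l) ≤ ∑ j ∈ range Q, a j + 2 * m * c := by
  have h1 : ∑ j ∈ range (l + Q), a j = ∑ j ∈ range l, a j + ∑ j ∈ range Q, a (l + j) :=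
    sum_range_add _ _ _
  have h2 : ∑ j ∈ range (Q + l), a j = ∑ j ∈ range Q, a j + ∑ j ∈ range l, a (Q + j) :=
    sum_range_add _ _ _
  rw [add_comm Q l] at h2
  have h3 : ∑ j ∈ range l, a (Q + j) ≤ l * c := by
    calc ∑ j ∈ range l, a (Q + j) ≤ ∑ j ∈ range l, c := by
          apply sum_le_sum
          intro j hj
          have := mem_range.1 hj
          exact (abs_le.1 (ha (Q + j) (by omega))).2
      _ = l * c := by simp
  rcases le_total l (Q + m) with hlm | hlm
  · have h4 : -(l * c) ≤ ∑ j ∈ range l, a j := by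
      calc -(l * c) = ∑ j ∈ range l, (-c) := by simp
        _ ≤ ∑ j ∈ range l, a j := by
          apply sum_le_sum
          intro j hj
          have := mem_range.1 hj
          exact (abs_le.1 (ha j (by omega))).1
    have h5 : ∑ j ∈ range Q, a (j + l) = ∑ j ∈ range Q, a (l + j) := by
      apply sum_congr rfl; intro j _; rw [add_comm]
    have h6 : (l:ℝ) * c ≤ m * c := by
      have : (l:ℝ) ≤ m := by exact_mod_cast hl
      gcongr
    linarith
  · have : l ≤ m := hl
    have h4 : -(l * c) ≤ ∑ j ∈ range l, a j := by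
      calc -(l * c) = ∑ j ∈ range l, (-c) := by simp
        _ ≤ ∑ j ∈ range l, a j := by
          apply sum_le_sum
          intro j hj
          have := mem_range.1 hj
          exact (abs_le.1 (ha j (by omega))).1
    have h5 : ∑ j ∈ range Q, a (j + l) = ∑ j ∈ range Q, a (l + j) := by
      apply sum_congr rfl; intro j _; rw [add_comm]
    have h6 : (l:ℝ) * c ≤ m * c := by
      have : (l:ℝ) ≤ m := by exact_mod_cast hl
      gcongr
    linarith

namespace Setup

variable {F : CircleDeg1Lift} {K M : ℝ}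

lemma W_sub_const (χ : ℝ → ℝ) (s : ℝ) (n : ℕ) (x : ℝ) :
    W F (fun y => s - χ y) n x = s * S F n x - W F χ n x := by
  unfold W S
  rw [mul_sum, ← sum_sub_distrib]
  apply sum_congr rfl
  intro j _
  ring

/-- Contraction step. -/
lemma contract (St : Setup F K M) {χ : ℝ → ℝ} (hχ : CP χ) (hint : ∫ x in (0:ℝ)..1, χ x = 0)
    {s : ℝ} {m : ℕ} (hm : 0 < m) (h : ∀ x, W F χ m x ≤ s * S F m x)
    {ε : ℝ} (hε : 0 < ε) :
    ∃ m' > 0, ∀ x, W F χ m' x ≤ ((1 - 1 / (2 * K ^ 2)) * s + ε) * S F m' x := by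
  have hK := St.K_pos
  set κ := 1 / (2 * K ^ 2) with hκ
  have hc : CP (fun y => s - χ y) := (CP.const s).sub hχ
  obtain ⟨C, hC, hCb⟩ := hc.bdd
  have hmR : (0:ℝ) < m := by exact_mod_cast hm
  have hm1 : (1:ℝ) ≤ m := by exact_mod_cast hm
  -- the nonnegative function
  have hψ : CP (W F (fun y => s - χ y) m) := St.H.W_CP hc m
  have hψ0 : ∀ x, 0 ≤ W F (fun y => s - χ y) m x := by
    intro x
    rw [W_sub_const]
    linarith [h x]
  have hψint : ∫ x in (0:ℝ)..1, W F (fun y => s - χ y) m x = m * s := by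
    rw [St.H.integral_W hc, intervalIntegral.integral_sub, hint]
    · simp
    · exact intervalIntegrable_const
    · exact hχ.cont.intervalIntegrable _ _
  obtain ⟨N1, hN1⟩ := St.lower hψ hψ0 (half_pos hε)
  set ε1 := ε / (4 * m * C) with hε1
  have hε1pos : 0 < ε1 := by positivity
  obtain ⟨N2, hN2⟩ := St.D_le_eps hε1pos m
  obtain ⟨q, q', p, p', hq, hcr⟩ := exists_CR St.H.irr (max N1 N2)
  refine ⟨q + q', by have := hcr.q_pos; omega, fun z => ?_⟩
  have hQ1 : N1 ≤ q := by have := le_max_left N1 N2; omega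
  have hQ2 : N2 ≤ q + q' := by have := le_max_right N1 N2; omega
  have key := hN1 hQ1 hcr z
  rw [hψint] at key
  set Q := q + q' with hQdef
  have hS := S_nonneg F St.H.pos Q z
  set a : ℕ → ℝ := fun i => (s - χ (F^[i] z)) * D F i z with ha
  have habs : ∀ i < Q + m, |a i| ≤ C * (ε1 * S F Q z) := by
    intro i hi
    rw [ha]
    simp only [abs_mul]
    have h1 := hCb (F^[i] z)
    have h2 := D_pos F St.H.pos i z
    rw [abs_of_pos h2]
    exact mul_le_mul h1 (hN2 Q hQ2 z i hi.le) h2.le hC.le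
  have e1 : W F (W F (fun y => s - χ y) m) Q z = ∑ l ∈ range m, ∑ j ∈ range Q, a (j + l) := by
    rw [sum_comm]
    unfold W
    apply sum_congr rfl
    intro j _
    rw [sum_mul]
    apply sum_congr rfl
    intro l _
    rw [ha]
    simp only
    rw [D_add, add_comm j l, iterate_add_apply]
    ring
  have e2 : ∑ j ∈ range Q, a j = s * S F Q z - W F χ Q z := by
    rw [← W_sub_const]; rfl
  have e3 : W F (W F (fun y => s - χ y) m) Q z ≤
      m * (s * S F Q z - W F χ Q z + 2 * m * (C * (ε1 * S F Q z))) := by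
    rw [e1, ← e2]
    calc ∑ l ∈ range m, ∑ j ∈ range Q, a (j + l)
        ≤ ∑ l ∈ range m, (∑ j ∈ range Q, a j + 2 * m * (C * (ε1 * S F Q z))) := by
          apply sum_le_sum
          intro l hl
          exact shift_sum_le habs (mem_range.1 hl).le (by positivity)
      _ = _ := by rw [sum_const, card_range, nsmul_eq_mul]
  have e4 : 2 * m * (C * (ε1 * S F Q z)) = ε / 2 * S F Q z := by
    rw [hε1]; field_simp; ring
  rw [e4] at e3
  have e5 : (m:ℝ) * s / (2 * K ^ 2) = κ * (m * s) := by rw [hκ]; field_simp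
  rw [e5] at key
  -- divide by m
  have e6 : S F Q z * (κ * (m * s) - ε / 2) ≤ m * (s * S F Q z - W F χ Q z + ε / 2 * S F Q z) :=
    key.trans e3
  have e7 : (m:ℝ) * W F χ Q z ≤ m * (((1 - κ) * s + ε) * S F Q z) := by
    have : S F Q z * (ε / 2) ≤ m * (S F Q z * (ε / 2)) := by
      have : 0 ≤ S F Q z * (ε / 2) := by positivity
      nlinarith
    nlinarith
  exact le_of_mul_le_mul_left e7 hmR

lemma one_sided (St : Setup F K M) {χ : ℝ → ℝ} (hχ : CP χ) (hint : ∫ x in (0:ℝ)..1, χ x = 0)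
    {ε : ℝ} (hε : 0 < ε) : ∃ m > 0, ∀ x, W F χ m x ≤ ε * S F m x := by
  have hK := St.K_pos
  have hK1 := St.one_le_K
  obtain ⟨C, hC, hCb⟩ := hχ.bdd
  set κ := 1 / (2 * K ^ 2) with hκ
  have hκpos : 0 < κ := by positivity
  have hκ1 : κ ≤ 1 / 2 := by
    rw [hκ]
    apply one_div_le_one_div_of_le (by norm_num)
    nlinarith
  have ind : ∀ n : ℕ, ∃ m > 0, ∀ x, W F χ m x ≤ ((1 - κ) ^ n * C + ε / 2) * S F m x := by
    intro n
    induction n with
    | zero =>
      refine ⟨1, one_pos, fun x => ?_⟩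
      simp only [W, S, range_one, sum_singleton, iterate_zero, id, D_zero, mul_one, pow_zero,
        one_mul]
      have := (abs_le.1 (hCb x)).2
      linarith
    | succ n ih =>
      obtain ⟨m, hm, h⟩ := ih
      obtain ⟨m', hm', h'⟩ := St.contract hχ hint hm h (ε := κ * (ε / 2)) (by positivity)
      refine ⟨m', hm', fun x => (h' x).trans (le_of_eq ?_)⟩
      rw [← hκ]
      ring
  obtain ⟨n, hn⟩ := exists_pow_lt_of_lt_one (show 0 < ε / (2 * C) by positivity)
    (show 1 - κ < 1 by linarith)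
  obtain ⟨m, hm, h⟩ := ind n
  refine ⟨m, hm, fun x => (h x).trans ?_⟩
  have hS := S_nonneg F St.H.pos m x
  have h1 : (1 - κ) ^ n * C ≤ ε / 2 := by
    have : (1 - κ) ^ n * C ≤ ε / (2 * C) * C := by gcongr
    refine this.trans (le_of_eq ?_)
    field_simp
  nlinarith

lemma W_mul_le (St : Setup F K M) {χ : ℝ → ℝ} {s : ℝ} {m : ℕ}
    (h : ∀ x, W F χ m x ≤ s * S F m x) (k : ℕ) (x : ℝ) :
    W F χ (k * m) x ≤ s * S F (k * m) x := by
  induction k with
  | zero => simp [W, S]
  | succ k ih =>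
    rw [Nat.succ_mul, W_add, S_add, mul_add]
    have h1 := h (F^[k * m] x)
    have h2 := D_pos F St.H.pos (k * m) x
    nlinarith

lemma W_neg (χ : ℝ → ℝ) (n : ℕ) (x : ℝ) : W F (fun y => - χ y) n x = - W F χ n x := by
  unfold W
  rw [← sum_neg_distrib]
  apply sum_congr rfl
  intro j _
  ring

lemma two_sided (St : Setup F K M) {χ : ℝ → ℝ} (hχ : CP χ) (hint : ∫ x in (0:ℝ)..1, χ x = 0)
    {ε : ℝ} (hε : 0 < ε) : ∃ m > 0, ∀ k x, |W F χ (k * m) x| ≤ ε * S F (k * m) x := by
  obtain ⟨m1, hm1, h1⟩ := St.one_sided hχ hint hε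
  obtain ⟨m2, hm2, h2⟩ := St.one_sided hχ.neg (by
    rw [intervalIntegral.integral_neg, hint, neg_zero]) hε
  refine ⟨m1 * m2, Nat.mul_pos hm1 hm2, fun k x => ?_⟩
  have e1 := St.W_mul_le h1 (k * m2) x
  have e2 := St.W_mul_le h2 (k * m1) x
  rw [W_neg] at e2
  have e3 : k * m2 * m1 = k * (m1 * m2) := by ring
  have e4 : k * m1 * m2 = k * (m1 * m2) := by ring
  rw [e3] at e1
  rw [e4] at e2
  rw [abs_le]
  constructor <;> linarith

/-- Uniform statement: for mean-zero `χ`, all weighted Birkhoff sums up to time `n` are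
`o(S_n)`, uniformly. -/
theorem uniform (St : Setup F K M) {χ : ℝ → ℝ} (hχ : CP χ) (hint : ∫ x in (0:ℝ)..1, χ x = 0)
    {ε : ℝ} (hε : 0 < ε) :
    ∃ N : ℕ, ∀ n ≥ N, ∀ i ≤ n, ∀ x : ℝ, |W F χ i x| ≤ ε * S F n x := by
  obtain ⟨m, hm, h⟩ := St.two_sided hχ hint (half_pos hε)
  obtain ⟨C, hC, hCb⟩ := hχ.bdd
  have hmR : (0:ℝ) < m := by exact_mod_cast hm
  obtain ⟨N, hN⟩ := St.D_le_eps (ε := ε / (2 * m * C)) (by positivity) 0
  refine ⟨N, fun n hn i hi x => ?_⟩
  have hDpos : ∀ j x, 0 < D F j x := D_pos F St.H.pos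
  have hS := S_nonneg F St.H.pos n x
  obtain ⟨b, r, hb, hr⟩ : ∃ b r, i = b * m + r ∧ r < m :=
    ⟨i / m, i % m, by rw [mul_comm]; exact (Nat.div_add_mod i m).symm, Nat.mod_lt _ hm⟩
  rw [hb, W_add]
  have e1 : |W F χ (b * m) x| ≤ ε / 2 * S F n x := by
    refine (h b x).trans ?_
    apply mul_le_mul_of_nonneg_left _ (half_pos hε).le
    exact S_mono F St.H.pos (by omega) x
  have e2 : |D F (b * m) x * W F χ r (F^[b * m] x)| ≤ ε / 2 * S F n x := by
    unfold W
    rw [mul_sum]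
    calc |∑ j ∈ range r, D F (b * m) x * (χ (F^[j] (F^[b * m] x)) * D F j (F^[b * m] x))|
        ≤ ∑ j ∈ range r, |D F (b * m) x * (χ (F^[j] (F^[b * m] x)) * D F j (F^[b * m] x))| :=
          abs_sum_le_sum_abs _ _
      _ ≤ ∑ j ∈ range r, C * (ε / (2 * m * C) * S F n x) := by
          apply sum_le_sum
          intro j hj
          have h1 : D F (b * m) x * (χ (F^[j] (F^[b * m] x)) * D F j (F^[b * m] x)) =
              χ (F^[j] (F^[b * m] x)) * D F (b * m + j) x := by
            rw [D_add]; ring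
          rw [h1, abs_mul, abs_of_pos (hDpos _ _)]
          have := mem_range.1 hj
          exact mul_le_mul (hCb _) (hN n hn x _ (by omega)) (hDpos _ _).le hC.le
      _ = r * (C * (ε / (2 * m * C) * S F n x)) := by rw [sum_const, card_range, nsmul_eq_mul]
      _ ≤ m * (C * (ε / (2 * m * C) * S F n x)) := by
          have : (r:ℝ) ≤ m := by exact_mod_cast hr.le
          gcongr
      _ = ε / 2 * S F n x := by field_simp
  calc |W F χ (b * m) x + D F (b * m) x * W F χ r (F^[b * m] x)|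
      ≤ |W F χ (b * m) x| + |D F (b * m) x * W F χ r (F^[b * m] x)| := abs_add_le _ _
    _ ≤ ε / 2 * S F n x + ε / 2 * S F n x := add_le_add e1 e2
    _ = ε * S F n x := by ring

end Setup

end Pool.Agent.Work.MP76c0db
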