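import Pool.Agent.Work.MP_76c0db_an.Dyn

set_option autoImplicit false

namespace Pool.Agent.Work.MP76c0db

open Finset Function

/-- Standing hypotheses: a lift of a `C^2` diffeomorphism with irrational rotation number. -/
structure Hyp (F : CircleDeg1Lift) : Prop where
  cd : ContDiff ℝ 2 (F : ℝ → ℝ)
  pos : ∀ x, 0 < deriv (F : ℝ → ℝ) x
  irr : Irrational F.translationNumber

variable {F : CircleDeg1Lift}

namespace Hyp

lemma diff (H : Hyp F) : Differentiable ℝ (F : ℝ → ℝ) := H.cd.differentiable (by norm_num)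

lemma cont (H : Hyp F) : Continuous (F : ℝ → ℝ) := H.cd.continuous

lemma strictMono (H : Hyp F) : StrictMono (F : ℝ → ℝ) := strictMono_of_deriv_pos H.pos

lemma deriv_cd (H : Hyp F) : ContDiff ℝ 1 (deriv (F : ℝ → ℝ)) := by
  have := H.cd
  rw [show (2 : WithTop ℕ∞) = 1 + 1 by norm_num] at this
  exact (contDiff_succ_iff_deriv.1 this).2.2

lemma log_cd (H : Hyp F) : ContDiff ℝ 1 (fun x => Real.log (deriv (F : ℝ → ℝ) x)) :=
  H.deriv_cd.log fun x => (H.pos x).ne'

/-- The nonlinearity `D log F'`. -/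
noncomputable def nonl (F : CircleDeg1Lift) (x : ℝ) : ℝ :=
  deriv (fun x => Real.log (deriv (F : ℝ → ℝ) x)) x

lemma nonl_cont (H : Hyp F) : Continuous (nonl F) :=
  H.log_cd.continuous_deriv le_rfl

lemma nonl_add_int (x : ℝ) (m : ℤ) : nonl F (x + m) = nonl F x := by
  unfold nonl
  have h : (fun y : ℝ => Real.log (deriv (F : ℝ → ℝ) (y + m))) =
      fun y => Real.log (deriv (F : ℝ → ℝ) y) := by
    ext y; rw [deriv_add_int]
  have h2 := congrFun (congrArg deriv h) x
  rw [deriv_comp_add_const (f := fun y => Real.log (deriv (F : ℝ → ℝ) y))] at h2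
  exact h2

lemma bdd_of_periodic {χ : ℝ → ℝ} (hc : Continuous χ) (hp : ∀ (x : ℝ) (m : ℤ), χ (x + m) = χ x) :
    ∃ C > 0, ∀ x, |χ x| ≤ C := by
  have hper : Function.Periodic χ 1 := fun x => by simpa using hp x 1
  obtain ⟨C, hC⟩ := (hper.isBounded_of_continuous one_ne_zero hc).exists_norm_le
  refine ⟨max C 1, lt_max_of_lt_right one_pos, fun x => ?_⟩
  exact (hC (χ x) (Set.mem_range_self x)).trans (le_max_left _ _)

lemma exists_lip (H : Hyp F) : ∃ L > 0, ∀ x y : ℝ,
    |Real.log (deriv (F : ℝ → ℝ) x) - Real.log (deriv (F : ℝ → ℝ) y)| ≤ L * |x - y| := by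
  obtain ⟨C, hC, h⟩ := bdd_of_periodic H.nonl_cont nonl_add_int
  refine ⟨C, hC, fun x y => ?_⟩
  have := Convex.norm_image_sub_le_of_norm_deriv_le (𝕜 := ℝ) (s := Set.univ)
    (f := fun x => Real.log (deriv (F : ℝ → ℝ) x)) (C := C) (x := y) (y := x)
    (fun z _ => (H.log_cd.differentiable (by norm_num)) z) (fun z _ => h z) convex_univ
    (Set.mem_univ _) (Set.mem_univ _)
  exact this

lemma log_D (H : Hyp F) (n : ℕ) (x : ℝ) :
    Real.log (D F n x) = ∑ j ∈ range n, Real.log (deriv (F : ℝ → ℝ) (F^[j] x)) := by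
  unfold D
  exact Real.log_prod fun j _ => (H.pos _).ne'

lemma distortion (H : Hyp F) {L : ℝ} (hL : 0 < L) (hlip : ∀ x y : ℝ,
    |Real.log (deriv (F : ℝ → ℝ) x) - Real.log (deriv (F : ℝ → ℝ) y)| ≤ L * |x - y|)
    {q q' : ℕ} {p p' : ℤ} (h : CR F.translationNumber q q' p p') {x u v : ℝ}
    (hu1 : x ≤ u) (hu2 : u ≤ F^[q] x - p) (hv1 : x ≤ v) (hv2 : v ≤ F^[q] x - p)
    {n : ℕ} (hn : n ≤ q + q') :
    |Real.log (D F n u) - Real.log (D F n v)| ≤ 2 * L := by
  rw [H.log_D, H.log_D, ← sum_sub_distrib]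
  calc |∑ j ∈ range n, (Real.log (deriv (F : ℝ → ℝ) (F^[j] u)) -
        Real.log (deriv (F : ℝ → ℝ) (F^[j] v)))|
      ≤ ∑ j ∈ range n, |(Real.log (deriv (F : ℝ → ℝ) (F^[j] u)) -
        Real.log (deriv (F : ℝ → ℝ) (F^[j] v)))| := abs_sum_le_sum_abs _ _
    _ ≤ ∑ j ∈ range n, L * (F^[j] (F^[q] x - p) - F^[j] x) := by
        apply sum_le_sum
        intro j _
        refine (hlip _ _).trans ?_
        apply mul_le_mul_of_nonneg_left _ hL.le
        have hm := (H.strictMono.iterate j).monotone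
        rw [abs_le]
        constructor <;> linarith [hm hu1, hm hu2, hm hv1, hm hv2]
    _ ≤ ∑ j ∈ range (q + q'), L * (F^[j] (F^[q] x - p) - F^[j] x) := by
        apply sum_le_sum_of_subset_of_nonneg (range_mono hn)
        intro j _ _
        apply mul_nonneg hL.le
        rw [iterate_g]
        linarith [le_g H.irr h (F^[j] x)]
    _ = L * ∑ j ∈ range (q + q'), (F^[j] (F^[q] x - p) - F^[j] x) := by rw [mul_sum]
    _ ≤ L * 2 := by
        apply mul_le_mul_of_nonneg_left _ hL.le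
        exact sum_le_two H.irr h x
    _ = 2 * L := by ring

lemma D_le_of_log (H : Hyp F) {n m : ℕ} {u v c : ℝ}
    (h : Real.log (D F n u) - Real.log (D F m v) ≤ c) : D F n u ≤ Real.exp c * D F m v := by
  have h1 := D_pos F H.pos n u
  have h2 := D_pos F H.pos m v
  rw [← Real.log_le_log_iff h1 (by positivity), Real.log_mul (Real.exp_pos _).ne' h2.ne',
    Real.log_exp]
  linarith

/-- Denjoy's bound for closest returns. -/
lemma denjoy (H : Hyp F) {L : ℝ} (hL : 0 < L) (hlip : ∀ x y : ℝ,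
    |Real.log (deriv (F : ℝ → ℝ) x) - Real.log (deriv (F : ℝ → ℝ) y)| ≤ L * |x - y|)
    {q q' : ℕ} {p p' : ℤ} (h : CR F.translationNumber q q' p p') (y : ℝ) :
    |Real.log (D F q y)| ≤ 4 * L := by
  -- a point where the derivative of the `q`-th iterate is one
  obtain ⟨x0, -, hx0⟩ := exists_hasDerivAt_eq_slope (F^[q]) (D F q) (zero_lt_one' ℝ)
    ((H.cont.iterate q).continuousOn) (fun x _ => hasDerivAt_iterate F H.diff q x)
  have h1 : F^[q] 1 = F^[q] 0 + 1 := by
    have := iterate_add_int F q 0 1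
    simpa using this
  rw [h1] at hx0
  have hx0' : D F q x0 = 1 := by rw [hx0]; ring
  obtain ⟨j, hj, m, h2, h3⟩ := covering H.irr H.cont H.strictMono h x0 y
  have hsurj : Surjective (F^[j]) := by
    have := (CircleDeg1Lift.continuous_iff_surjective (F ^ j)).1
      (by rw [CircleDeg1Lift.coe_pow]; exact H.cont.iterate _)
    rwa [CircleDeg1Lift.coe_pow] at this
  obtain ⟨u, hu⟩ := hsurj (y + m)
  rw [← hu] at h2 h3
  have hsm := H.strictMono.iterate j
  have hu1 := hsm.le_iff_le.1 h2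
  have hu2 := hsm.le_iff_le.1 h3
  have e1 : D F q y = D F q (F^[j] u) := by rw [hu, D_add_int]
  have e2 : D F j u * D F q (F^[j] u) = D F q u * D F j (F^[q] u) := by
    rw [← D_add, ← D_add, add_comm]
  have e3 : D F j (F^[q] u) = D F j (F^[q] u - p) := by rw [D_sub_int]
  have p1 := D_pos F H.pos j u
  have p2 := D_pos F H.pos q (F^[j] u)
  have p3 := D_pos F H.pos q u
  have p4 := D_pos F H.pos j (F^[q] u)
  have e4 : Real.log (D F j u) + Real.log (D F q (F^[j] u)) =
      Real.log (D F q u) + Real.log (D F j (F^[q] u)) := by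
    rw [← Real.log_mul p1.ne' p2.ne', ← Real.log_mul p3.ne' p4.ne', e2]
  have d1 := H.distortion hL hlip h (x := u) (u := F^[q] u - p) (v := u) (n := j)
    (le_g H.irr h u) le_rfl le_rfl (le_g H.irr h u) (by omega)
  have d2 := H.distortion hL hlip h (x := x0) (u := u) (v := x0) (n := q)
    hu1 hu2 le_rfl (le_g H.irr h x0) (by omega)
  rw [hx0', Real.log_one] at d2
  rw [e1]
  rw [e3] at e4
  rw [abs_le] at d1 d2 ⊢
  constructor <;> linarith [d1.1, d1.2, d2.1, d2.2]

end Hyp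

end Pool.Agent.Work.MP76c0db
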