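import Mathlib

set_option autoImplicit false

namespace Pool.Agent.Work.MP76c0db

open Finset Function MeasureTheory Set

lemma sum_length_le_one {n : ℕ} {a b : ℕ → ℝ} (h0 : ∀ i < n, a i ≤ b i)
    (h1 : ∀ i < n, b i ≤ a i + 1)
    (h2 : ∀ i j, i < j → j < n → ∀ m : ℤ, b i ≤ a j + m ∨ b j + m ≤ a i) :
    ∑ i ∈ Finset.range n, (b i - a i) ≤ 1 := by
  let A : ℕ → Set (AddCircle (1:ℝ)) := fun i => (fun x : ℝ => (x : AddCircle (1:ℝ))) '' Ioo (a i) (b i)
  have hopen : ∀ i, IsOpen (A i) := fun i =>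
    QuotientAddGroup.isOpenMap_coe _ isOpen_Ioo
  have hmeas : ∀ i, MeasurableSet (A i) := fun i => (hopen i).measurableSet
  have key : ∀ i < n, ENNReal.ofReal (b i - a i) ≤ volume (A i) := by
    intro i hi
    have hmp := AddCircle.measurePreserving_mk (1:ℝ) (a i)
    rw [← hmp.measure_preimage (hmeas i).nullMeasurableSet, Measure.restrict_apply
      (hmp.measurable (hmeas i)), ← Real.volume_Ioo]
    apply measure_mono
    intro x hx
    refine ⟨⟨x, hx, rfl⟩, hx.1, ?_⟩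
    have := h1 i hi
    linarith [hx.2]
  have hdisj' : ∀ i j, i < j → j < n → Disjoint (A i) (A j) := by
    intro i j hij hj
    rw [Set.disjoint_left]
    rintro _ ⟨s, hs, rfl⟩ ⟨t, ht, hst⟩
    have h3 : ((s - t : ℝ) : AddCircle (1:ℝ)) = 0 := by
      rw [AddCircle.coe_sub, sub_eq_zero]; exact hst.symm
    obtain ⟨m, hm⟩ := (AddCircle.coe_eq_zero_iff (1:ℝ)).1 h3
    have hm' : s = t + m := by
      rw [zsmul_eq_mul, mul_one] at hm; linarith
    rcases h2 i j hij hj m with h | h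
    · have := hs.2; have := ht.1; linarith
    · have := hs.1; have := ht.2; linarith
  have hdisj : (↑(Finset.range n) : Set ℕ).PairwiseDisjoint A := by
    intro i hi j hj hij
    simp only [coe_range, Set.mem_Iio] at hi hj
    rcases lt_or_gt_of_ne hij with h | h
    · exact hdisj' i j h hj
    · exact (hdisj' j i h hi).symm
  have hsum : ∑ i ∈ Finset.range n, volume (A i) ≤ 1 := by
    rw [← measure_biUnion_finset hdisj (fun i _ => hmeas i)]
    calc volume (⋃ i ∈ Finset.range n, A i) ≤ volume (Set.univ : Set (AddCircle (1:ℝ))) :=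
          measure_mono (Set.subset_univ _)
      _ = 1 := by rw [AddCircle.measure_univ]; simp
  have h5 : ENNReal.ofReal (∑ i ∈ Finset.range n, (b i - a i)) ≤ 1 := by
    rw [ENNReal.ofReal_sum_of_nonneg]
    · refine (Finset.sum_le_sum fun i hi => key i (by simpa using hi)).trans hsum
    · intro i hi
      have := h0 i (by simpa using hi)
      linarith
  rw [← ENNReal.ofReal_one] at h5
  exact (ENNReal.ofReal_le_ofReal_iff zero_le_one).1 h5

lemma lintegral_biUnion_finset_le' (s : Finset ℕ) (A : ℕ → Set ℝ) (ψ : ℝ → ENNReal) :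
    ∫⁻ x in ⋃ i ∈ s, A i, ψ x ≤ ∑ i ∈ s, ∫⁻ x in A i, ψ x := by
  induction s using Finset.induction_on with
  | empty => simp
  | insert a s ha ih =>
    rw [Finset.set_biUnion_insert, Finset.sum_insert ha]
    exact (lintegral_union_le _ _ _).trans (by gcongr)

lemma lintegral_le_of_cover {n : ℕ} {a b : ℕ → ℝ}
    (hcov : ∀ y : ℝ, ∃ i < n, ∃ m : ℤ, a i ≤ y + m ∧ y + m ≤ b i)
    {ψ : ℝ → ENNReal} (hψ : Measurable ψ) (hper : ∀ (x : ℝ) (m : ℤ), ψ (x + m) = ψ x) :
    ∫⁻ x in Ioc (0:ℝ) 1, ψ x ≤ ∑ i ∈ Finset.range n, ∫⁻ x in Icc (a i) (b i), ψ x := by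
  have hsub : Ioc (0:ℝ) 1 ⊆ ⋃ i ∈ Finset.range n, ⋃ m : ℤ,
      (Ioc (0:ℝ) 1 ∩ (fun x : ℝ => x + m) ⁻¹' (Icc (a i) (b i))) := by
    intro y hy
    obtain ⟨i, hi, m, h1, h2⟩ := hcov y
    simp only [Set.mem_iUnion]
    exact ⟨i, by simpa using hi, m, hy, h1, h2⟩
  calc ∫⁻ x in Ioc (0:ℝ) 1, ψ x
      ≤ ∫⁻ x in ⋃ i ∈ Finset.range n, ⋃ m : ℤ,
      (Ioc (0:ℝ) 1 ∩ (fun x : ℝ => x + m) ⁻¹' (Icc (a i) (b i))), ψ x :=
        lintegral_mono_set hsub
    _ ≤ ∑ i ∈ Finset.range n, ∫⁻ x in ⋃ m : ℤ,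
      (Ioc (0:ℝ) 1 ∩ (fun x : ℝ => x + m) ⁻¹' (Icc (a i) (b i))), ψ x := by
        exact lintegral_biUnion_finset_le' _ _ _
    _ ≤ ∑ i ∈ Finset.range n, ∑' m : ℤ, ∫⁻ x in
      (Ioc (0:ℝ) 1 ∩ (fun x : ℝ => x + m) ⁻¹' (Icc (a i) (b i))), ψ x := by
        apply Finset.sum_le_sum
        intro i _
        exact lintegral_iUnion_le _ _
    _ = ∑ i ∈ Finset.range n, ∑' m : ℤ, ∫⁻ x in (Ioc (m:ℝ) (m + 1) ∩ (Icc (a i) (b i))), ψ x := by
        apply Finset.sum_congr rfl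
        intro i _
        congr 1
        ext m
        have hmp : MeasurePreserving (fun x : ℝ => x + m) volume volume :=
          measurePreserving_add_right volume (m:ℝ)
        rw [← hmp.setLIntegral_comp_preimage
          (measurableSet_Ioc.inter measurableSet_Icc) hψ]
        have : (fun x : ℝ => x + m) ⁻¹' (Ioc (m:ℝ) (m + 1) ∩ Icc (a i) (b i)) =
          (Ioc (0:ℝ) 1 ∩ (fun x : ℝ => x + m) ⁻¹' (Icc (a i) (b i))) := by
          ext x
          simp only [Set.mem_preimage, Set.mem_inter_iff, Set.mem_Ioc, Set.mem_Icc]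
          constructor
          · rintro ⟨⟨h1, h2⟩, h3⟩
            exact ⟨⟨by linarith, by linarith⟩, h3⟩
          · rintro ⟨⟨h1, h2⟩, h3⟩
            exact ⟨⟨by linarith, by linarith⟩, h3⟩
        rw [this]
        simp only [hper]
    _ = ∑ i ∈ Finset.range n, ∫⁻ x in Icc (a i) (b i), ψ x := by
        apply Finset.sum_congr rfl
        intro i _
        rw [← lintegral_iUnion (fun m => measurableSet_Ioc.inter measurableSet_Icc)]
        · rw [← Set.iUnion_inter, iUnion_Ioc_intCast, Set.univ_inter]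
        · intro m m' hmm
          exact ((pairwise_disjoint_Ioc_intCast ℝ) hmm).mono Set.inter_subset_left
            Set.inter_subset_left

lemma integral_le_of_cover {n : ℕ} {a b : ℕ → ℝ} (hab : ∀ i < n, a i ≤ b i)
    (hcov : ∀ y : ℝ, ∃ i < n, ∃ m : ℤ, a i ≤ y + m ∧ y + m ≤ b i)
    {ψ : ℝ → ℝ} (hψ : Continuous ψ) (hper : ∀ (x : ℝ) (m : ℤ), ψ (x + m) = ψ x)
    (h0 : ∀ x, 0 ≤ ψ x) :
    ∫ x in (0:ℝ)..1, ψ x ≤ ∑ i ∈ Finset.range n, ∫ x in (a i)..(b i), ψ x := by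
  have h := lintegral_le_of_cover hcov (ψ := fun x => ENNReal.ofReal (ψ x))
    (by fun_prop) (fun x m => by simp only [hper])
  have e1 : ∀ c d : ℝ, c ≤ d → ENNReal.ofReal (∫ x in c..d, ψ x) =
      ∫⁻ x in Icc c d, ENNReal.ofReal (ψ x) := by
    intro c d hcd
    rw [intervalIntegral.integral_of_le hcd, ← integral_Icc_eq_integral_Ioc,
      ofReal_integral_eq_lintegral_ofReal]
    · exact (hψ.continuousOn).integrableOn_Icc
    · exact Filter.Eventually.of_forall h0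
  have e2 : ∫⁻ x in Ioc (0:ℝ) 1, ENNReal.ofReal (ψ x) = ENNReal.ofReal (∫ x in (0:ℝ)..1, ψ x) := by
    rw [e1 0 1 zero_le_one]
    exact setLIntegral_congr Ioc_ae_eq_Icc
  rw [e2] at h
  have h3 : ∑ i ∈ Finset.range n, ∫⁻ x in Icc (a i) (b i), ENNReal.ofReal (ψ x) =
      ENNReal.ofReal (∑ i ∈ Finset.range n, ∫ x in (a i)..(b i), ψ x) := by
    rw [ENNReal.ofReal_sum_of_nonneg]
    · apply Finset.sum_congr rfl
      intro i hi
      rw [e1 _ _ (hab i (by simpa using hi))]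
    · intro i hi
      exact intervalIntegral.integral_nonneg (hab i (by simpa using hi)) (fun x _ => h0 x)
  rw [h3] at h
  refine (ENNReal.ofReal_le_ofReal_iff ?_).1 h
  apply Finset.sum_nonneg
  intro i hi
  exact intervalIntegral.integral_nonneg (hab i (by simpa using hi)) (fun x _ => h0 x)

end Pool.Agent.Work.MP76c0db
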