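import Mathlib

set_option autoImplicit false

namespace Pool.Agent.Work.MP76c0db

/-- Consecutive closest returns of the rotation by `τ`, the first one on the positive side. -/
structure CR (τ : ℝ) (q q' : ℕ) (p p' : ℤ) : Prop where
  q_pos : 0 < q
  lt : q < q'
  pos : (p : ℝ) < q * τ
  lt_one : q * τ - p < 1
  neg : (q' : ℝ) * τ < p'
  sum : (p : ℝ) + p' < q * τ + q' * τ
  min : ∀ j : ℕ, 0 < j → j < q' → ∀ m : ℤ, q * τ - p ≤ |j * τ - m|

/-- Distance from `j τ` to the nearest integer. -/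
noncomputable def nd (τ : ℝ) (j : ℕ) : ℝ := |j * τ - round (j * τ)|

lemma nd_le (τ : ℝ) (j : ℕ) (m : ℤ) : nd τ j ≤ |j * τ - m| := round_le _ _

lemma nd_pos {τ : ℝ} (h : Irrational τ) {j : ℕ} (hj : 0 < j) : 0 < nd τ j := by
  have h1 : Irrational ((j : ℝ) * τ) := h.natCast_mul (by omega)
  have h2 := h1.sub_intCast (round ((j : ℝ) * τ))
  exact abs_pos.2 h2.ne_zero

lemma exists_nd_lt (τ : ℝ) {δ : ℝ} (hδ : 0 < δ) : ∃ j : ℕ, 0 < j ∧ nd τ j < δ := by
  obtain ⟨n, hn⟩ := exists_nat_one_div_lt hδ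
  obtain ⟨j, hj, -, h⟩ := Real.exists_nat_abs_mul_sub_round_le τ (Nat.succ_pos n)
  refine ⟨j, hj, lt_of_le_of_lt h (lt_of_le_of_lt ?_ hn)⟩
  push_cast
  apply one_div_le_one_div_of_le <;> linarith [(Nat.cast_nonneg n : (0:ℝ) ≤ n)]

lemma exists_next (τ : ℝ) {δ : ℝ} (hδ : 0 < δ) :
    ∃ r : ℕ, 0 < r ∧ nd τ r < δ ∧ ∀ j : ℕ, 0 < j → j < r → δ ≤ nd τ j := by
  classical
  have h := exists_nd_lt τ hδ
  refine ⟨Nat.find h, (Nat.find_spec h).1, (Nat.find_spec h).2, ?_⟩
  intro j hj hjr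
  have := Nat.find_min h hjr
  by_contra hc
  exact this ⟨hj, not_le.1 hc⟩

lemma sign_flip {τ : ℝ} (hτ : Irrational τ) {a b : ℕ} (ha : 0 < a) (hab : a < b)
    (hlt : nd τ b < nd τ a) (hmin : ∀ j : ℕ, 0 < j → j < b → nd τ a ≤ nd τ j) :
    (a * τ - round (a * τ)) * (b * τ - round (b * τ)) < 0 := by
  have h1 := nd_pos hτ ha
  have h2 := nd_pos hτ (ha.trans hab)
  have h3 := hmin (b - a) (by omega) (by omega)
  have h4 := h3.trans (nd_le τ (b - a) (round (b * τ) - round (a * τ)))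
  rw [Nat.cast_sub hab.le] at h4
  push_cast at h4
  have h5 : ((b:ℝ) - a) * τ - (round (b * τ) - round (a * τ)) =
    (b * τ - round (b * τ)) - (a * τ - round (a * τ)) := by ring
  rw [h5] at h4
  unfold nd at *
  set s := (a * τ - round (a * τ) : ℝ)
  set t := (b * τ - round (b * τ) : ℝ)
  by_contra hc
  push Not at hc
  rcases lt_or_ge 0 s with hs | hs
  · have ht : 0 ≤ t := by
      by_contra h; push Not at h
      nlinarith
    rw [abs_of_nonneg ht] at hlt h2
    rw [abs_of_pos hs] at h1 h4 hlt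
    rw [abs_of_nonpos (by linarith)] at h4
    linarith
  · have hs' : s < 0 := lt_of_le_of_ne hs (by intro h; rw [h] at h1; simp at h1)
    have ht : t ≤ 0 := by
      by_contra h; push Not at h
      nlinarith
    rw [abs_of_nonpos ht] at hlt h2
    rw [abs_of_neg hs'] at h1 h4 hlt
    rw [abs_of_nonneg (by linarith)] at h4
    linarith

lemma CR_of_records {τ : ℝ} (hτ : Irrational τ) {a b : ℕ} (ha : 0 < a) (hab : a < b)
    (hlt : nd τ b < nd τ a) (hmin : ∀ j : ℕ, 0 < j → j < b → nd τ a ≤ nd τ j)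
    (hs : 0 < a * τ - round (a * τ)) :
    CR τ a b (round (a * τ)) (round (b * τ)) := by
  have hf := sign_flip hτ ha hab hlt hmin
  have ht : b * τ - round (b * τ) < 0 := by
    by_contra h; push Not at h
    nlinarith
  have h6 : nd τ a = a * τ - round (a * τ) := abs_of_pos hs
  have h7 : nd τ b = -(b * τ - round (b * τ)) := abs_of_neg ht
  refine ⟨ha, hab, by linarith, ?_, by linarith, ?_, ?_⟩
  · have := abs_sub_round ((a:ℝ) * τ)
    rw [abs_of_pos hs] at this
    linarith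
  · rw [h6, h7] at hlt
    linarith
  · intro j hj hjb m
    rw [← h6]
    exact (hmin j hj hjb).trans (nd_le τ j m)

theorem exists_CR {τ : ℝ} (hτ : Irrational τ) (N : ℕ) :
    ∃ (q q' : ℕ) (p p' : ℤ), N < q ∧ CR τ q q' p p' := by
  -- a lower bound for `nd` on `1..N`
  obtain ⟨δ, hδ, hδN⟩ : ∃ δ : ℝ, 0 < δ ∧ ∀ j : ℕ, 0 < j → j ≤ N → δ ≤ nd τ j := by
    induction N with
    | zero => exact ⟨1, one_pos, fun j hj hj' => by omega⟩
    | succ N ih =>
      obtain ⟨δ, hδ, h⟩ := ih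
      refine ⟨min δ (nd τ (N + 1)), lt_min hδ (nd_pos hτ (by omega)), ?_⟩
      intro j hj hjN
      rcases Nat.lt_or_ge j (N + 1) with h1 | h1
      · exact (min_le_left _ _).trans (h j hj (by omega))
      · have : j = N + 1 := by omega
        rw [this]; exact min_le_right _ _
  obtain ⟨r1, hr1, h1, h1'⟩ := exists_next τ hδ
  obtain ⟨r2, hr2, h2, h2'⟩ := exists_next τ (nd_pos hτ hr1)
  obtain ⟨r3, hr3, h3, h3'⟩ := exists_next τ (nd_pos hτ hr2)
  have hN1 : N < r1 := by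
    by_contra h; push Not at h
    exact absurd (hδN r1 hr1 h) (not_le.2 h1)
  have h12 : r1 < r2 := by
    by_contra h; push Not at h
    rcases h.eq_or_lt with h | h
    · rw [h] at h2; exact lt_irrefl _ h2
    · have := h1' r2 hr2 h
      linarith
  have h23 : r2 < r3 := by
    by_contra h; push Not at h
    rcases h.eq_or_lt with h | h
    · rw [h] at h3; exact lt_irrefl _ h3
    · have := h2' r3 hr3 h
      linarith
  rcases lt_or_ge 0 ((r1:ℝ) * τ - round ((r1:ℝ) * τ)) with hs | hs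
  · exact ⟨r1, r2, _, _, hN1, CR_of_records hτ hr1 h12 h2 h2' hs⟩
  · have hf := sign_flip hτ hr1 h12 h2 h2'
    refine ⟨r2, r3, _, _, by omega, CR_of_records hτ hr2 h23 h3 h3' ?_⟩
    by_contra h; push Not at h
    nlinarith

end Pool.Agent.Work.MP76c0db
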