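import Pool.Agent.Work.MP_76c0db_an.Basic
import Pool.Agent.Work.MP_76c0db_an.Returns
import Pool.Agent.Work.MP_76c0db_an.Measure

set_option autoImplicit false

namespace Pool.Agent.Work.MP76c0db

open Finset Function

variable (F : CircleDeg1Lift)

lemma cmp_le (hτ : Irrational F.translationNumber) {a : ℕ} {m : ℤ}
    (h : (m : ℝ) ≤ a * F.translationNumber) (x : ℝ) : x + m ≤ F^[a] x := by
  rcases Nat.eq_zero_or_pos a with rfl | ha
  · simp at h
    have : (m:ℝ) ≤ 0 := by exact_mod_cast h
    simp; linarith
  · have hne : (m : ℝ) ≠ a * F.translationNumber := by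
      intro he
      have := hτ.natCast_mul (by omega : a ≠ 0)
      exact this ⟨m, by push_cast; exact he⟩
    have hlt := lt_of_le_of_ne h hne
    rw [← CircleDeg1Lift.translationNumber_pow] at hlt
    have := CircleDeg1Lift.lt_map_of_int_lt_translationNumber _ hlt x
    rw [CircleDeg1Lift.coe_pow] at this
    exact this.le

lemma cmp_ge (hτ : Irrational F.translationNumber) {a : ℕ} {m : ℤ}
    (h : a * F.translationNumber ≤ m) (x : ℝ) : F^[a] x ≤ x + m := by
  rcases Nat.eq_zero_or_pos a with rfl | ha
  · simp at h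
    have : (0:ℝ) ≤ m := by exact_mod_cast h
    simp; linarith
  · have hne : a * F.translationNumber ≠ m := by
      intro he
      have := hτ.natCast_mul (by omega : a ≠ 0)
      exact this ⟨m, by push_cast; exact he.symm⟩
    have hlt := lt_of_le_of_ne h hne
    rw [← CircleDeg1Lift.translationNumber_pow] at hlt
    have := CircleDeg1Lift.map_lt_of_translationNumber_lt_int _ hlt x
    rw [CircleDeg1Lift.coe_pow] at this
    exact this.le

lemma cmp (hτ : Irrational F.translationNumber) {a b : ℕ} {m n : ℤ}
    (h : a * F.translationNumber - m ≤ b * F.translationNumber - n) (x : ℝ) :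
    F^[a] x - m ≤ F^[b] x - n := by
  rcases le_total a b with hab | hab
  · obtain ⟨c, rfl⟩ := Nat.exists_eq_add_of_le' hab
    have := cmp_le F hτ (a := c) (m := n - m) (by push_cast at h ⊢; linarith) (F^[a] x)
    rw [iterate_add_apply]
    push_cast at this
    linarith
  · obtain ⟨c, rfl⟩ := Nat.exists_eq_add_of_le' hab
    have := cmp_ge F hτ (a := c) (m := m - n) (by push_cast at h ⊢; linarith) (F^[b] x)
    rw [iterate_add_apply]
    push_cast at this
    linarith

variable {F}
variable {q q' : ℕ} {p p' : ℤ}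

lemma le_g (hτ : Irrational F.translationNumber) (h : CR F.translationNumber q q' p p') (x : ℝ) :
    x ≤ F^[q] x - p := by
  have := cmp_le F hτ h.pos.le x
  linarith

lemma lt_g (hτ : Irrational F.translationNumber) (h : CR F.translationNumber q q' p p') (x : ℝ) :
    x < F^[q] x - p := by
  have hlt := h.pos
  rw [← CircleDeg1Lift.translationNumber_pow] at hlt
  have := CircleDeg1Lift.lt_map_of_int_lt_translationNumber _ hlt x
  rw [CircleDeg1Lift.coe_pow] at this
  linarith

lemma g_le_add_one (hτ : Irrational F.translationNumber) (h : CR F.translationNumber q q' p p')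
    (x : ℝ) : F^[q] x - p ≤ x + 1 := by
  have := cmp_ge F hτ (a := q) (m := p + 1) (by push_cast; linarith [h.lt_one]) x
  push_cast at this
  linarith

lemma iterate_g (j : ℕ) (x : ℝ) : F^[j] (F^[q] x - p) = F^[q] (F^[j] x) - p := by
  rw [iterate_sub_int, ← iterate_add_apply, ← iterate_add_apply, add_comm]

lemma returns_disjoint (hτ : Irrational F.translationNumber) (h : CR F.translationNumber q q' p p')
    (x : ℝ) (i j : ℕ) (hij : i < j) (hj : j < q') (m : ℤ) :
    F^[i] (F^[q] x - p) ≤ F^[j] x + m ∨ F^[j] (F^[q] x - p) + m ≤ F^[i] x := by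
  obtain ⟨k, rfl⟩ := Nat.exists_eq_add_of_le' hij.le
  have hk : 0 < k := by omega
  have hm := h.min k hk (by omega) (-m)
  push_cast at hm
  rw [sub_neg_eq_add] at hm
  rcases le_abs.1 hm with h1 | h1
  · left
    have := cmp F hτ (a := q) (b := k) (m := p) (n := -m) (by push_cast; linarith) (F^[i] x)
    rw [iterate_g, iterate_add_apply]
    push_cast at this
    linarith
  · right
    have := cmp_ge F hτ (a := k + q) (m := p - m) (by push_cast; linarith) (F^[i] x)
    rw [iterate_g, iterate_add_apply, ← iterate_add_apply F q k, add_comm q k]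
    push_cast at this
    linarith

/-- the intervals `F^j [x, g x]`, `j < q'`, are disjoint modulo one, so their lengths sum to
at most one -/
lemma sum_le_one (hτ : Irrational F.translationNumber) (h : CR F.translationNumber q q' p p')
    (x : ℝ) : ∑ j ∈ range q', (F^[j] (F^[q] x - p) - F^[j] x) ≤ 1 := by
  apply sum_length_le_one
  · intro i _
    rw [iterate_g]
    exact le_g hτ h _
  · intro i _
    rw [iterate_g]
    exact g_le_add_one hτ h _
  · intro i j hij hj m
    exact returns_disjoint hτ h x i j hij hj m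

lemma sum_le_two (hτ : Irrational F.translationNumber) (h : CR F.translationNumber q q' p p')
    (x : ℝ) : ∑ j ∈ range (q + q'), (F^[j] (F^[q] x - p) - F^[j] x) ≤ 2 := by
  rw [add_comm, sum_range_add]
  have h1 := sum_le_one hτ h x
  have h2 := sum_le_one hτ h (F^[q'] x)
  have h3 : ∑ j ∈ range q, (F^[q' + j] (F^[q] x - p) - F^[q' + j] x) ≤
      ∑ j ∈ range q', (F^[j] (F^[q] (F^[q'] x) - p) - F^[j] (F^[q'] x)) := by
    calc ∑ j ∈ range q, (F^[q' + j] (F^[q] x - p) - F^[q' + j] x)
        = ∑ j ∈ range q, (F^[j] (F^[q] (F^[q'] x) - p) - F^[j] (F^[q'] x)) := by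
          apply sum_congr rfl
          intro j _
          rw [add_comm q' j, iterate_add_apply, iterate_g, iterate_add_apply]
      _ ≤ _ := by
          apply sum_le_sum_of_subset_of_nonneg (range_mono h.lt.le)
          intro j _ _
          rw [iterate_g]
          linarith [le_g hτ h (F^[j] (F^[q'] x))]
  linarith

/-- `y` is covered modulo one by the intervals `F^j [x, g x]`, `j < q + q'`. -/
def Cov (F : CircleDeg1Lift) (q q' : ℕ) (p : ℤ) (x y : ℝ) : Prop :=
  ∃ j < q + q', ∃ m : ℤ, F^[j] x ≤ y + m ∧ y + m ≤ F^[j] (F^[q] x - p)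

lemma Cov_step (hτ : Irrational F.translationNumber) (h : CR F.translationNumber q q' p p')
    {x y : ℝ} (hc : Cov F q q' p x y) : Cov F q q' p x (F y) := by
  obtain ⟨j, hj, m, h1, h2⟩ := hc
  have h1' : F^[j + 1] x ≤ F y + m := by
    rw [iterate_succ_apply', ← CircleDeg1Lift.map_add_int]
    exact F.monotone h1
  have h2' : F y + m ≤ F^[j + 1] (F^[q] x - p) := by
    rw [iterate_succ_apply', ← CircleDeg1Lift.map_add_int]
    exact F.monotone h2
  rcases Nat.lt_or_ge (j + 1) (q + q') with h3 | h3
  · exact ⟨j + 1, h3, m, h1', h2'⟩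
  · have h4 : j + 1 = q + q' := by omega
    rw [h4] at h1' h2'
    have hx1 := cmp_le F hτ (a := q + q') (m := p + p') (by push_cast; linarith [h.sum]) x
    have hx2 := cmp_ge F hτ (a := q') (m := p') (by linarith [h.neg]) (F^[q] (F^[q] x - p))
    rw [← iterate_add_apply] at hx2
    have h5 : F^[q' + q] (F^[q] x - p) = F^[q + q'] (F^[q] x - p) := by rw [add_comm]
    rw [h5] at hx2
    push_cast at hx1
    rcases le_total (F y + (m - p - p' : ℤ)) (F^[q] x - p) with h6 | h6
    · refine ⟨0, by have := h.q_pos; omega, m - p - p', ?_, ?_⟩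
      · simp only [iterate_zero, id]
        push_cast; linarith
      · simpa using h6
    · refine ⟨q, by have := h.lt; omega, m - p', ?_, ?_⟩
      · push_cast at h6 ⊢
        linarith
      · push_cast
        linarith

lemma Cov_iterate (hτ : Irrational F.translationNumber) (h : CR F.translationNumber q q' p p')
    {x y : ℝ} (hc : Cov F q q' p x y) (n : ℕ) : Cov F q q' p x (F^[n] y) := by
  induction n with
  | zero => exact hc
  | succ n ih =>
    rw [iterate_succ_apply']
    exact Cov_step hτ h ih

lemma Cov_of_add_int {x y : ℝ} {m : ℤ} (hc : Cov F q q' p x (y + m)) : Cov F q q' p x y := by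
  obtain ⟨j, hj, n, h1, h2⟩ := hc
  refine ⟨j, hj, m + n, ?_, ?_⟩ <;> push_cast <;> linarith

lemma exists_iterate_large (h : CR F.translationNumber q q' p p')
    (hτ : Irrational F.translationNumber) (x y : ℝ) :
    ∃ k : ℕ, y < F^[k * q] x - (k * p : ℤ) := by
  have hθ : 0 < q * F.translationNumber - p := by linarith [h.pos]
  obtain ⟨R, hR⟩ := exists_int_gt (y - x)
  obtain ⟨k, hk⟩ := exists_nat_gt ((R : ℝ) / (q * F.translationNumber - p))
  refine ⟨k, ?_⟩
  rw [div_lt_iff₀ hθ] at hk
  have := cmp_le F hτ (a := k * q) (m := k * p + R) (by push_cast; nlinarith) x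
  push_cast at this ⊢
  linarith

theorem covering (hτ : Irrational F.translationNumber) (hc : Continuous (F : ℝ → ℝ))
    (hs : StrictMono (F : ℝ → ℝ))
    (h : CR F.translationNumber q q' p p') (x y : ℝ) : Cov F q q' p x y := by
  classical
  -- choose an integer translate of `y` to the right of `x`
  obtain ⟨M, hM⟩ := exists_int_gt (x - y)
  have hk := exists_iterate_large h hτ x (y + M)
  have hk0 : Nat.find hk ≠ 0 := by
    intro h0
    have := Nat.find_spec hk
    rw [h0] at this
    simp at this
    linarith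
  obtain ⟨k, hkk⟩ := Nat.exists_eq_succ_of_ne_zero hk0
  have hspec := Nat.find_spec hk
  have hmin := Nat.find_min hk (m := k) (by omega)
  rw [hkk] at hspec
  push Not at hmin
  -- now `F^{kq} x ≤ y + M + k p ≤ F^{kq} (g x)`
  have h1 : F^[k * q] x ≤ y + (M + k * p : ℤ) := by push_cast at hmin ⊢; linarith
  have h2 : y + (M + k * p : ℤ) ≤ F^[k * q] (F^[q] x - p) := by
    rw [iterate_sub_int, ← iterate_add_apply]
    have : k.succ * q = k * q + q := by rw [Nat.succ_mul]
    rw [this] at hspec
    push_cast at hspec ⊢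
    linarith
  have hcont : Continuous (F^[k * q]) := hc.iterate _
  have hsurj : Surjective (F^[k * q]) := by
    have := (CircleDeg1Lift.continuous_iff_surjective (F ^ (k * q))).1
      (by rw [CircleDeg1Lift.coe_pow]; exact hcont)
    rwa [CircleDeg1Lift.coe_pow] at this
  obtain ⟨u, hu⟩ := hsurj (y + (M + k * p : ℤ))
  rw [← hu] at h1 h2
  have hsm := hs.iterate (k * q)
  have hu1 := hsm.le_iff_le.1 h1
  have hu2 := hsm.le_iff_le.1 h2
  have hcu : Cov F q q' p x u := ⟨0, by have := h.q_pos; omega, 0, by simpa using hu1,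
    by simpa using hu2⟩
  have := Cov_iterate hτ h hcu (k * q)
  rw [hu] at this
  exact Cov_of_add_int this

end Pool.Agent.Work.MP76c0db
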