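import Pool.Agent.Work.MP_76c0db_an.Dist

set_option autoImplicit false

namespace Pool.Agent.Work.MP76c0db

open Finset Function

/-- The two-sided bound `1/M ≤ (F^q)' ≤ M`. -/
def Good (F : CircleDeg1Lift) (M : ℝ) (q : ℕ) : Prop :=
  ∀ x, D F q x ≤ M ∧ 1 ≤ M * D F q x

/-- Hypotheses together with the constants of Denjoy's bound (`M`) and of bounded
distortion (`K`). -/
structure Setup (F : CircleDeg1Lift) (K M : ℝ) : Prop where
  H : Hyp F
  one_le_K : 1 ≤ K
  one_le_M : 1 ≤ M
  good : ∀ {q q' : ℕ} {p p' : ℤ}, CR F.translationNumber q q' p p' → Good F M q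
  dist : ∀ {q q' : ℕ} {p p' : ℤ}, CR F.translationNumber q q' p p' → ∀ x u v : ℝ,
    x ≤ u → u ≤ F^[q] x - p → x ≤ v → v ≤ F^[q] x - p → ∀ n ≤ q + q', D F n u ≤ K * D F n v

lemma Hyp.exists_setup {F : CircleDeg1Lift} (H : Hyp F) : ∃ K M : ℝ, Setup F K M := by
  obtain ⟨L, hL, hlip⟩ := H.exists_lip
  refine ⟨Real.exp (2 * L), Real.exp (4 * L), H, ?_, ?_, ?_, ?_⟩
  · exact Real.one_le_exp (by positivity)
  · exact Real.one_le_exp (by positivity)
  · intro q q' p p' h x
    have h1 := H.denjoy hL hlip h x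
    rw [abs_le] at h1
    have hp := D_pos F H.pos q x
    constructor
    · rw [← Real.log_le_iff_le_exp hp]; exact h1.2
    · have h2 : Real.exp (-(4 * L)) ≤ D F q x := by
        rw [← Real.le_log_iff_exp_le hp]; exact h1.1
      calc (1:ℝ) = Real.exp (4 * L) * Real.exp (-(4 * L)) := by
            rw [← Real.exp_add]; simp
        _ ≤ _ := by gcongr
  · intro q q' p p' h x u v h1 h2 h3 h4 n hn
    have := H.distortion hL hlip h h1 h2 h3 h4 hn
    exact H.D_le_of_log (abs_le.1 this).2

lemma sum_inj_le {s : Finset ℕ} {e : ℕ → ℕ} {n : ℕ} (hinj : Set.InjOn e s)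
    (hr : ∀ q ∈ s, e q < n) {g : ℕ → ℝ} (hg : ∀ j, 0 ≤ g j) :
    ∑ q ∈ s, g (e q) ≤ ∑ j ∈ range n, g j := by
  rw [← sum_image (f := g) (g := e) hinj]
  apply sum_le_sum_of_subset_of_nonneg
  · intro j hj
    obtain ⟨q, hq, rfl⟩ := mem_image.1 hj
    exact mem_range.2 (hr q hq)
  · intro j _ _
    exact hg j

namespace Setup

variable {F : CircleDeg1Lift} {K M : ℝ}

lemma M_pos (St : Setup F K M) : 0 < M := lt_of_lt_of_le one_pos St.one_le_M
lemma K_pos (St : Setup F K M) : 0 < K := lt_of_lt_of_le one_pos St.one_le_K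

lemma exists_good_finset (St : Setup F K M) (k m : ℕ) :
    ∃ s : Finset ℕ, s.card = k ∧ ∀ q ∈ s, m < q ∧ Good F M q := by
  induction k with
  | zero => exact ⟨∅, by simp, by simp⟩
  | succ k ih =>
    obtain ⟨s, hs, h⟩ := ih
    obtain ⟨q, q', p, p', hq, hcr⟩ := exists_CR St.H.irr (max m (s.sup id))
    have hqs : q ∉ s := by
      intro hmem
      have : id q ≤ s.sup id := le_sup hmem
      simp only [id] at this
      have := le_max_right m (s.sup id)
      omega
    refine ⟨insert q s, by rw [card_insert_of_notMem hqs, hs], ?_⟩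
    intro r hr
    rcases mem_insert.1 hr with rfl | hr
    · refine ⟨?_, St.good hcr⟩
      have := le_max_left m (s.sup id)
      omega
    · exact h r hr

/-- Each derivative is small compared to the sum. -/
lemma D_le_eps (St : Setup F K M) {ε : ℝ} (hε : 0 < ε) (m : ℕ) :
    ∃ N : ℕ, ∀ n ≥ N, ∀ x : ℝ, ∀ i ≤ n + m, D F i x ≤ ε * S F n x := by
  obtain ⟨k, hk⟩ := exists_nat_gt (M / ε)
  have hk' : M < k * ε := by rwa [div_lt_iff₀ hε] at hk
  have hkpos : (0:ℝ) < k := by
    have := St.M_pos
    by_contra hc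
    push Not at hc
    nlinarith
  obtain ⟨s, hs, hg⟩ := St.exists_good_finset k m
  refine ⟨2 * s.sup id, fun n hn x i hi => ?_⟩
  have hsup : ∀ q ∈ s, q ≤ s.sup id := fun q hq => le_sup (f := id) hq
  have hnn : ∀ j, 0 ≤ D F j x := fun j => (D_pos F St.H.pos j x).le
  have key : k * D F i x ≤ M * S F n x := by
    rcases Nat.lt_or_ge i (s.sup id) with h1 | h1
    · have h2 : ∑ q ∈ s, D F (i + q) x ≤ S F n x := by
        apply sum_inj_le (e := fun q => i + q) (g := fun j => D F j x)
        · intro a _ b _ hab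
          simpa using hab
        · intro q hq
          have := hsup q hq
          omega
        · exact hnn
      have h3 : ∀ q ∈ s, D F i x ≤ M * D F (i + q) x := by
        intro q hq
        rw [D_add]
        have h4 := ((hg q hq).2 (F^[i] x)).2
        nlinarith [hnn i]
      calc k * D F i x = ∑ q ∈ s, D F i x := by rw [sum_const, hs, nsmul_eq_mul]
        _ ≤ ∑ q ∈ s, M * D F (i + q) x := sum_le_sum h3
        _ = M * ∑ q ∈ s, D F (i + q) x := by rw [mul_sum]
        _ ≤ M * S F n x := by gcongr; exact St.M_pos.le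
    · have h2 : ∑ q ∈ s, D F (i - q) x ≤ S F n x := by
        apply sum_inj_le (e := fun q => i - q) (g := fun j => D F j x)
        · intro a ha b hb hab
          have h3 := hsup a ha
          have h4 := hsup b hb
          simp only at hab
          omega
        · intro q hq
          have h3 := hsup q hq
          have := (hg q hq).1
          omega
        · exact hnn
      have h3 : ∀ q ∈ s, D F i x ≤ M * D F (i - q) x := by
        intro q hq
        have h4 := hsup q hq
        have h5 : D F i x = D F (i - q) x * D F q (F^[i - q] x) := by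
          rw [← D_add]; congr 1; omega
        rw [h5]
        have h6 := ((hg q hq).2 (F^[i - q] x)).1
        nlinarith [hnn (i - q)]
      calc k * D F i x = ∑ q ∈ s, D F i x := by rw [sum_const, hs, nsmul_eq_mul]
        _ ≤ ∑ q ∈ s, M * D F (i - q) x := sum_le_sum h3
        _ = M * ∑ q ∈ s, D F (i - q) x := by rw [mul_sum]
        _ ≤ M * S F n x := by gcongr; exact St.M_pos.le
  have hS := S_nonneg F St.H.pos n x
  have : k * D F i x ≤ k * (ε * S F n x) := by nlinarith
  exact le_of_mul_le_mul_left this hkpos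

lemma sub_le_of_good (St : Setup F K M) {i : ℕ} (hi : Good F M i) {x y : ℝ} (hxy : x ≤ y) :
    y - x ≤ M * (F^[i] y - F^[i] x) := by
  rcases hxy.eq_or_lt with rfl | hlt
  · simp
  · obtain ⟨c, -, hc⟩ := exists_hasDerivAt_eq_slope (F^[i]) (D F i) hlt
      ((St.H.cont.iterate i).continuousOn) (fun x _ => hasDerivAt_iterate F St.H.diff i x)
    have h1 := (hi c).2
    rw [hc] at h1
    have hpos : 0 < y - x := by linarith
    rw [← mul_div_assoc, le_div_iff₀ hpos] at h1
    linarith

/-- closest returns move points by a small amount, uniformly -/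
lemma small (St : Setup F K M) {ε : ℝ} (hε : 0 < ε) :
    ∃ N : ℕ, ∀ {q q' : ℕ} {p p' : ℤ}, N ≤ q → CR F.translationNumber q q' p p' → ∀ x : ℝ,
      F^[q] x - p - x ≤ ε := by
  obtain ⟨k, hk⟩ := exists_nat_gt (M / ε)
  have hk' : M < k * ε := by rwa [div_lt_iff₀ hε] at hk
  have hkpos : (0:ℝ) < k := by
    have := St.M_pos
    by_contra hc
    push Not at hc
    nlinarith
  obtain ⟨s, hs, hg⟩ := St.exists_good_finset k 0
  refine ⟨s.sup id, fun {q q' p p'} hq hcr x => ?_⟩
  have hsup : ∀ q ∈ s, q ≤ s.sup id := fun q hq => le_sup (f := id) hq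
  have h1 := sum_le_one St.H.irr hcr x
  have h2 : ∑ i ∈ s, (F^[i] (F^[q] x - p) - F^[i] x) ≤
      ∑ j ∈ range q', (F^[j] (F^[q] x - p) - F^[j] x) := by
    apply sum_inj_le (e := fun i => i) (g := fun j => (F^[j] (F^[q] x - p) - F^[j] x))
    · intro a _ b _ hab; exact hab
    · intro i hi
      have := hsup i hi
      have := hcr.lt
      omega
    · intro j
      rw [iterate_g]
      linarith [le_g St.H.irr hcr (F^[j] x)]
  have h3 : k * (F^[q] x - p - x) ≤ M := by
    calc k * (F^[q] x - p - x) = ∑ i ∈ s, (F^[q] x - p - x) := by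
          rw [sum_const, hs, nsmul_eq_mul]
      _ ≤ ∑ i ∈ s, M * (F^[i] (F^[q] x - p) - F^[i] x) := by
          apply sum_le_sum
          intro i hi
          exact St.sub_le_of_good (hg i hi).2 (le_g St.H.irr hcr x)
      _ = M * ∑ i ∈ s, (F^[i] (F^[q] x - p) - F^[i] x) := by rw [mul_sum]
      _ ≤ M * 1 := by
          apply mul_le_mul_of_nonneg_left _ St.M_pos.le
          linarith
      _ = M := mul_one M
  have : k * (F^[q] x - p - x) ≤ k * ε := by linarith
  exact le_of_mul_le_mul_left this hkpos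

end Setup

end Pool.Agent.Work.MP76c0db
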